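import Mathlib

/-!
# Tensors invariant under the orthogonal Lie algebra, in degrees less than the dimension
-/

set_option linter.unusedSectionVars false

namespace Pool.Agent.Q263.K3

open Function

/-- Tensors of degree `a` on a space with a basis indexed by `Fin r`, with values in `M`. -/
abbrev Tens (r a : ℕ) (M : Type*) := (Fin a → Fin r) → M

section act

variable {R : Type*} [CommRing R] {M : Type*} [AddCommGroup M] [Module R M] {r a : ℕ}

/-- The action of a matrix on tensors (as a derivation). -/
def act (X : Matrix (Fin r) (Fin r) R) (t : Tens r a M) : Tens r a M :=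
  fun I => ∑ s : Fin a, ∑ j : Fin r, X (I s) j • t (update I s j)

end act

variable {r : ℕ} {M : Type*} [AddCommGroup M] [Module ℚ M]

/-- The infinitesimal rotation in the plane of the basis vectors `p`, `q`, for the form with
diagonal entries `d`. -/
def rot (d : Fin r → ℚ) (p q : Fin r) : Matrix (Fin r) (Fin r) ℚ :=
  fun i j => if i = p ∧ j = q then d q else if i = q ∧ j = p then -d p else 0

/-- The tensors which are sums of products of pairings of two positions and an element of `S`. -/
inductive Gen (d : Fin r → ℚ) (S : Submodule ℚ M) : (a : ℕ) → Tens r a M → Prop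
  | base (m : M) (hm : m ∈ S) : Gen d S 0 (fun _ => m)
  | pair {a : ℕ} (s : Fin (a + 1)) (g : Tens r a M) (hg : Gen d S a g) :
      Gen d S (a + 2) (fun I => if I 0 = I s.succ then
        (d (I 0))⁻¹ • g (fun l => I (s.succAbove l).succ) else 0)
  | add {a : ℕ} (t u : Tens r a M) (ht : Gen d S a t) (hu : Gen d S a u) : Gen d S a (t + u)
  | zero {a : ℕ} : Gen d S a 0

variable {d : Fin r → ℚ} {S : Submodule ℚ M}

theorem Gen.sum {a : ℕ} {ι : Type*} (T : Finset ι) (f : ι → Tens r a M)
    (h : ∀ i ∈ T, Gen d S a (f i)) : Gen d S a (∑ i ∈ T, f i) := by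
  classical
  induction T using Finset.induction_on with
  | empty => rw [Finset.sum_empty]; exact Gen.zero
  | insert i T hi ih =>
    rw [Finset.sum_insert hi]
    exact Gen.add _ _ (h i (Finset.mem_insert_self _ _))
      (ih fun j hj => h j (Finset.mem_insert_of_mem hj))

theorem exists_notMem_range {a : ℕ} (j : Fin a → Fin r) (h : a < r) : ∃ q, ∀ l, j l ≠ q := by
  by_contra hc
  push Not at hc
  have h1 : Surjective j := fun q => hc q
  have h2 := Fintype.card_le_of_surjective j h1
  simp only [Fintype.card_fin] at h2
  omega

/-- The key identity. -/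
theorem key {a : ℕ} {t : Tens r (a + 1) M}
    (hinv : ∀ p q : Fin r, p ≠ q → act (rot d p q) t = 0) {p q : Fin r} (hpq : p ≠ q)
    (i : Fin a → Fin r) (hq : ∀ l, i l ≠ q) :
    d p • t (Fin.cons p i) = ∑ l : Fin a, if i l = p then d q • t (Fin.cons q (update i l q))
      else 0 := by
  have h := congrFun (hinv p q hpq) (Fin.cons q i : Fin (a + 1) → Fin r)
  simp only [act, Pi.zero_apply] at h
  rw [Fin.sum_univ_succ] at h
  have h0 : ∑ j : Fin r, rot d p q ((Fin.cons q i : Fin (a + 1) → Fin r) 0) j •
      t (update (Fin.cons q i : Fin (a + 1) → Fin r) 0 j) = -(d p • t (Fin.cons p i)) := by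
    rw [Finset.sum_eq_single p]
    · rw [Fin.cons_zero, Fin.update_cons_zero]
      simp [rot, hpq.symm]
    · intro j _ hj
      rw [Fin.cons_zero]
      simp [rot, hpq.symm, hj]
    · intro h; exact absurd (Finset.mem_univ _) h
  rw [h0] at h
  have h1 : ∀ l : Fin a, ∑ j : Fin r, rot d p q ((Fin.cons q i : Fin (a + 1) → Fin r) l.succ) j •
      t (update (Fin.cons q i : Fin (a + 1) → Fin r) l.succ j) =
      if i l = p then d q • t (Fin.cons q (update i l q)) else 0 := by
    intro l
    rw [Fin.cons_succ]
    split_ifs with hl
    · rw [Finset.sum_eq_single q]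
      · rw [← Fin.cons_update]
        simp [rot, hl]
      · intro j _ hj
        simp [rot, hl, hj, hpq]
      · intro h; exact absurd (Finset.mem_univ _) h
    · apply Finset.sum_eq_zero
      intro j _
      simp [rot, hl, hq l]
  rw [Finset.sum_congr rfl fun l _ => h1 l] at h
  exact neg_add_eq_zero.1 h

/-- The first fundamental theorem in degrees less than the dimension. -/
theorem fft (hd : ∀ p, d p ≠ 0) : ∀ (a : ℕ) (_ : a < r) (t : Tens r a M), (∀ I, t I ∈ S) →
    (∀ p q : Fin r, p ≠ q → act (rot d p q) t = 0) → Gen d S a t
  | 0, _, t, hS, _ => by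
    have : t = fun _ => t Fin.elim0 := by
      funext I
      congr 1
      exact Subsingleton.elim _ _
    rw [this]
    exact Gen.base _ (hS _)
  | 1, hr, t, _, hinv => by
    have : t = 0 := by
      funext I
      obtain ⟨q, hq⟩ := exists_notMem_range I hr
      have h := key hinv (hq 0) (fun l => l.elim0) (fun l => l.elim0)
      rw [Fin.sum_univ_zero] at h
      have h2 : (Fin.cons (I 0) (fun l : Fin 0 => l.elim0) : Fin 1 → Fin r) = I := by
        funext l
        fin_cases l
        rfl
      rw [h2] at h
      rw [Pi.zero_apply]
      exact (smul_eq_zero.1 h).resolve_left (hd _)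
    rw [this]
    exact Gen.zero
  | a + 2, hr, t, hS, hinv => by
    have hex : ∀ j : Fin a → Fin r, ∃ q, ∀ l, j l ≠ q := fun j =>
      exists_notMem_range j (by omega)
    choose c hc using hex
    let g : Fin (a + 1) → Tens r a M := fun s j =>
      d (c j) • t (Fin.cons (c j) (Fin.insertNth s (c j) j : Fin (a + 1) → Fin r))
    -- independence of the choice
    have hg : ∀ (s : Fin (a + 1)) (j : Fin a → Fin r) (q : Fin r), (∀ l, j l ≠ q) →
        g s j = d q • t (Fin.cons q (Fin.insertNth s q j : Fin (a + 1) → Fin r)) := by
      have h0 : ∀ (s : Fin (a + 1)) (j : Fin a → Fin r) (p q : Fin r), (∀ l, j l ≠ q) →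
          (∀ l, j l ≠ p) →
          d p • t (Fin.cons p (Fin.insertNth s p j : Fin (a + 1) → Fin r)) =
          d q • t (Fin.cons q (Fin.insertNth s q j : Fin (a + 1) → Fin r)) := by
        intro s j p q hq hp
        rcases eq_or_ne p q with rfl | hpq
        · rfl
        have hq' : ∀ l, (Fin.insertNth s p j : Fin (a + 1) → Fin r) l ≠ q := by
          intro l
          rcases Fin.eq_self_or_eq_succAbove s l with rfl | ⟨l', rfl⟩
          · rw [Fin.insertNth_apply_same]; exact hpq
          · rw [Fin.insertNth_apply_succAbove]; exact hq l'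
        have h := key hinv hpq (Fin.insertNth s p j : Fin (a + 1) → Fin r) hq'
        rw [h, Finset.sum_eq_single s]
        · rw [Fin.insertNth_apply_same, if_pos rfl, Fin.update_insertNth]
        · intro l _ hl
          rcases Fin.eq_self_or_eq_succAbove s l with rfl | ⟨l', rfl⟩
          · exact absurd rfl hl
          · rw [Fin.insertNth_apply_succAbove, if_neg (hp l')]
        · intro h; exact absurd (Finset.mem_univ _) h
      intro s j q hq
      exact h0 s j (c j) q hq (hc j)
    have hgen : ∀ s, Gen d S a (g s) := by
      intro s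
      refine fft hd a (by omega) (g s) (fun I => S.smul_mem _ (hS _)) ?_
      intro p p' hpp
      funext j
      rw [Pi.zero_apply]
      -- choose a letter outside
      have : ∃ q, (∀ l, j l ≠ q) ∧ p ≠ q ∧ p' ≠ q := by
        obtain ⟨q, hq⟩ := exists_notMem_range
          (Fin.cons p (Fin.cons p' j : Fin (a + 1) → Fin r) : Fin (a + 2) → Fin r) hr
        refine ⟨q, fun l => ?_, hq 0, ?_⟩
        · have := hq l.succ.succ
          rwa [Fin.cons_succ, Fin.cons_succ] at this
        · have := hq (Fin.succ 0)
          rwa [Fin.cons_succ, Fin.cons_zero] at this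
      obtain ⟨q, hq, hpq, hpq'⟩ := this
      have h := congrFun (hinv p p' hpp)
        (Fin.cons q (Fin.insertNth s q j : Fin (a + 1) → Fin r) : Fin (a + 2) → Fin r)
      simp only [act, Pi.zero_apply] at h
      rw [Fin.sum_univ_succ, Fin.sum_univ_succAbove _ s] at h
      simp only [Fin.cons_zero, Fin.cons_succ, Fin.insertNth_apply_same,
        Fin.insertNth_apply_succAbove, ← Fin.cons_update] at h
      have hz : ∀ x : Fin r, rot d p p' q x = 0 := by
        intro x
        simp [rot, hpq.symm, hpq'.symm]
      simp only [hz, zero_smul, Finset.sum_const_zero, zero_add] at h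
      have h3 : act (rot d p p') (g s) j = d q • ∑ l : Fin a, ∑ x : Fin r,
          rot d p p' (j l) x • t (Fin.cons q (update
            (Fin.insertNth s q j : Fin (a + 1) → Fin r) (s.succAbove l) x)) := by
        simp only [act]
        rw [Finset.smul_sum]
        refine Finset.sum_congr rfl fun l _ => ?_
        rw [Finset.smul_sum]
        refine Finset.sum_congr rfl fun x _ => ?_
        by_cases hx : x = p ∨ x = p'
        · have e := hg s (update j l x) q (by
            intro l'
            rcases eq_or_ne l' l with rfl | hl
            · rw [update_self]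
              rcases hx with rfl | rfl
              · exact hpq
              · exact hpq'
            · rw [update_of_ne hl]; exact hq l')
          rw [e, Fin.insertNth_update, smul_comm]
        · push Not at hx
          have : rot d p p' (j l) x = 0 := by simp [rot, hx.1, hx.2]
          rw [this, zero_smul, zero_smul, smul_zero]
      rw [h3, h, smul_zero]
    have hfin : t = ∑ s : Fin (a + 1), fun I => if I 0 = I s.succ then
        (d (I 0))⁻¹ • g s (fun l => I (s.succAbove l).succ) else 0 := by
      funext I
      rw [Finset.sum_apply]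
      obtain ⟨q, hq⟩ := exists_notMem_range I hr
      have h := key hinv (hq 0) (fun l => I l.succ) (fun l => hq l.succ)
      have h2 : (Fin.cons (I 0) (fun l => I l.succ) : Fin (a + 2) → Fin r) = I := by
        exact Fin.cons_self_tail I
      rw [h2] at h
      have h3 : t I = (d (I 0))⁻¹ • (d (I 0) • t I) := by
        rw [smul_smul, inv_mul_cancel₀ (hd _), one_smul]
      rw [h3, h, Finset.smul_sum]
      refine Finset.sum_congr rfl fun s _ => ?_
      by_cases hs : I 0 = I s.succ
      · rw [if_pos hs.symm, if_pos hs]
        congr 1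
        rw [hg s _ q (fun l => hq _)]
        congr 3
        have := Fin.insertNth_removeNth (α := fun _ => Fin r) s q (fun l => I l.succ)
        rw [← this]
        rfl
      · rw [if_neg (Ne.symm hs), if_neg hs, smul_zero]
    rw [hfin]
    exact Gen.sum _ _ fun s _ => Gen.pair s (g s) (hgen s)

end Pool.Agent.Q263.K3
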