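import Mathlib
import Pool.Agent.Q263.K3.FFT

/-!
# Rational Hodge structures of K3 type: the Lie algebra generated by moving periods
-/

set_option linter.unusedSectionVars false

namespace Pool.Agent.Q263.K3

open Function Module Matrix

/-- A Hodge structure of K3 type: `ℚ ^ r` with the form with diagonal entries `d` (the intersection
form in an orthogonal basis) and the period vector `ω`, which spans `T^(2,0)`. -/
structure K3Type (r : ℕ) where
  /-- the diagonal entries of the intersection form -/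
  d : Fin r → ℚ
  /-- the period vector -/
  ω : Fin r → ℂ
  isotropic : ∑ i, (d i : ℂ) * ω i * ω i = 0
  pos : 0 < ∑ i, (d i : ℝ) * Complex.normSq (ω i)
  neg : ∀ x : Fin r → ℝ, x ≠ 0 → ∑ i, (d i : ℂ) * ω i * (x i : ℂ) = 0 →
    ∑ i, (d i : ℝ) * x i ^ 2 < 0
  indep : LinearIndependent ℚ ω

variable {r : ℕ}

/-- Complex conjugation of vectors. -/
def cj (x : Fin r → ℂ) : Fin r → ℂ := fun i => starRingEnd ℂ (x i)

@[simp] theorem cj_cj (x : Fin r → ℂ) : cj (cj x) = x := by
  funext i; simp [cj]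

theorem cj_add (x y : Fin r → ℂ) : cj (x + y) = cj x + cj y := by
  funext i; simp [cj]

theorem cj_smul (c : ℂ) (x : Fin r → ℂ) : cj (c • x) = starRingEnd ℂ c • cj x := by
  funext i; simp [cj]

theorem cj_eq_zero {x : Fin r → ℂ} : cj x = 0 ↔ x = 0 := by
  constructor
  · intro h
    have := congrArg cj h
    rw [cj_cj] at this
    rw [this]; funext i; simp [cj]
  · rintro rfl; funext i; simp [cj]

theorem cj_zero : cj (0 : Fin r → ℂ) = 0 := cj_eq_zero.2 rfl

namespace K3Type

variable (T : K3Type r)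

/-- The complexified intersection form. -/
noncomputable def q : (Fin r → ℂ) →ₗ[ℂ] (Fin r → ℂ) →ₗ[ℂ] ℂ :=
  LinearMap.mk₂ ℂ (fun x y => ∑ i, (T.d i : ℂ) * x i * y i)
    (fun x x' y => by
      simp only [Pi.add_apply]; rw [← Finset.sum_add_distrib]
      exact Finset.sum_congr rfl fun i _ => by ring)
    (fun c x y => by
      simp only [Pi.smul_apply, smul_eq_mul]; rw [Finset.mul_sum]
      exact Finset.sum_congr rfl fun i _ => by ring)
    (fun x y y' => by
      simp only [Pi.add_apply]; rw [← Finset.sum_add_distrib]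
      exact Finset.sum_congr rfl fun i _ => by ring)
    (fun c x y => by
      simp only [Pi.smul_apply, smul_eq_mul]; rw [Finset.mul_sum]
      exact Finset.sum_congr rfl fun i _ => by ring)

theorem q_apply (x y : Fin r → ℂ) : T.q x y = ∑ i, (T.d i : ℂ) * x i * y i := rfl

theorem q_comm (x y : Fin r → ℂ) : T.q x y = T.q y x := by
  rw [q_apply, q_apply]
  exact Finset.sum_congr rfl fun i _ => by ring

theorem q_cj (x y : Fin r → ℂ) : T.q (cj x) (cj y) = starRingEnd ℂ (T.q x y) := by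
  rw [q_apply, q_apply, map_sum]
  refine Finset.sum_congr rfl fun i _ => ?_
  simp [cj]

/-- The vector which spans `T^(0,2)`. -/
noncomputable def ω' : Fin r → ℂ := cj T.ω

theorem q_ωω : T.q T.ω T.ω = 0 := T.isotropic

theorem q_ω'ω' : T.q T.ω' T.ω' = 0 := by
  rw [ω', q_cj, q_ωω, map_zero]

/-- The number `q (ω, conj ω)`. -/
noncomputable def h : ℂ := T.q T.ω T.ω'

theorem h_ne : T.h ≠ 0 := by
  have h1 : T.h = ((∑ i, (T.d i : ℝ) * Complex.normSq (T.ω i) : ℝ) : ℂ) := by
    rw [h, q_apply]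
    push_cast
    refine Finset.sum_congr rfl fun i _ => ?_
    rw [ω', cj, mul_assoc, Complex.mul_conj]
  rw [h1]
  exact_mod_cast T.pos.ne'

theorem q_ω'ω : T.q T.ω' T.ω = T.h := T.q_comm _ _

theorem cj_ω : cj T.ω = T.ω' := rfl

theorem cj_ω' : cj T.ω' = T.ω := cj_cj _

/-- The operator `x ↦ q (u, x) v - q (v, x) u`. -/
noncomputable def wd (u v : Fin r → ℂ) : Matrix (Fin r) (Fin r) ℂ :=
  fun i j => (v i * u j - u i * v j) * (T.d j : ℂ)

theorem wd_mulVec (u v x : Fin r → ℂ) : T.wd u v *ᵥ x = T.q u x • v - T.q v x • u := by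
  funext i
  simp only [Matrix.mulVec, dotProduct, wd, Pi.sub_apply, Pi.smul_apply, smul_eq_mul, q_apply]
  rw [Finset.sum_mul, Finset.sum_mul, ← Finset.sum_sub_distrib]
  exact Finset.sum_congr rfl fun j _ => by ring

theorem wd_add_left (u u' v : Fin r → ℂ) : T.wd (u + u') v = T.wd u v + T.wd u' v := by
  ext i j; simp only [wd, Pi.add_apply, Matrix.add_apply]; ring

theorem wd_add_right (u v v' : Fin r → ℂ) : T.wd u (v + v') = T.wd u v + T.wd u v' := by
  ext i j; simp only [wd, Pi.add_apply, Matrix.add_apply]; ring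

theorem wd_smul_left (c : ℂ) (u v : Fin r → ℂ) : T.wd (c • u) v = c • T.wd u v := by
  ext i j; simp only [wd, Pi.smul_apply, Matrix.smul_apply, smul_eq_mul]; ring

theorem wd_smul_right (c : ℂ) (u v : Fin r → ℂ) : T.wd u (c • v) = c • T.wd u v := by
  ext i j; simp only [wd, Pi.smul_apply, Matrix.smul_apply, smul_eq_mul]; ring

theorem wd_self (u : Fin r → ℂ) : T.wd u u = 0 := by
  ext i j; simp only [wd, Matrix.zero_apply]; ring

theorem wd_swap (u v : Fin r → ℂ) : T.wd u v = -T.wd v u := by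
  ext i j; simp only [wd, Matrix.neg_apply]; ring

theorem wd_neg_left (u v : Fin r → ℂ) : T.wd (-u) v = -T.wd u v := by
  ext i j; simp only [wd, Matrix.neg_apply, Pi.neg_apply]; ring

theorem wd_cj (u v : Fin r → ℂ) : T.wd (cj u) (cj v) = (T.wd u v).map (starRingEnd ℂ) := by
  ext i j; simp [wd, cj]

/-- Skew matrices. -/
def Skew (X : Matrix (Fin r) (Fin r) ℂ) : Prop :=
  ∀ i j, (T.d i : ℂ) * X i j + (T.d j : ℂ) * X j i = 0

theorem skew_q {X : Matrix (Fin r) (Fin r) ℂ} (hX : T.Skew X) (u v : Fin r → ℂ) :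
    T.q (X *ᵥ u) v = -T.q u (X *ᵥ v) := by
  rw [q_apply, q_apply, ← Finset.sum_neg_distrib]
  simp only [Matrix.mulVec, dotProduct]
  simp only [Finset.mul_sum, Finset.sum_mul]
  rw [Finset.sum_comm]
  refine Finset.sum_congr rfl fun j _ => ?_
  rw [← Finset.sum_neg_distrib]
  refine Finset.sum_congr rfl fun i _ => ?_
  have := hX i j
  linear_combination (u j * v i) * this

/-- The bracket with an operator `u ∧ v`. -/
theorem br_wd {X : Matrix (Fin r) (Fin r) ℂ} (hX : T.Skew X) (u v : Fin r → ℂ) :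
    X * T.wd u v - T.wd u v * X = T.wd (X *ᵥ u) v + T.wd u (X *ᵥ v) := by
  ext i j
  have h1 : (X * T.wd u v) i j = ((X *ᵥ v) i * u j - (X *ᵥ u) i * v j) * (T.d j : ℂ) := by
    rw [Matrix.mul_apply]
    simp only [wd, Matrix.mulVec, dotProduct]
    rw [Finset.sum_mul, Finset.sum_mul, ← Finset.sum_sub_distrib, Finset.sum_mul]
    exact Finset.sum_congr rfl fun k _ => by ring
  have h2 : (T.wd u v * X) i j = -((v i * (X *ᵥ u) j - u i * (X *ᵥ v) j) * (T.d j : ℂ)) := by
    rw [Matrix.mul_apply]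
    simp only [wd, Matrix.mulVec, dotProduct]
    rw [Finset.mul_sum, Finset.mul_sum, ← Finset.sum_sub_distrib, Finset.sum_mul,
      ← Finset.sum_neg_distrib]
    refine Finset.sum_congr rfl fun k _ => ?_
    have := hX k j
    linear_combination (v i * u k - u i * v k) * this
  rw [Matrix.sub_apply, h1, h2, Matrix.add_apply]
  simp only [wd]
  ring

/-- The Hodge operator: multiplication by `p - q` on `T^(p,q)`. -/
noncomputable def z : Matrix (Fin r) (Fin r) ℂ :=
  fun i j => 2 / (∑ k, (T.d k : ℂ) * T.ω k * starRingEnd ℂ (T.ω k)) *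
    ((T.ω i * starRingEnd ℂ (T.ω j) - starRingEnd ℂ (T.ω i) * T.ω j) * (T.d j : ℂ))

theorem z_eq : T.z = (2 / T.h) • T.wd T.ω' T.ω := by
  ext i j
  rfl

theorem z_mulVec (x : Fin r → ℂ) :
    T.z *ᵥ x = (2 / T.h) • (T.q T.ω' x • T.ω - T.q T.ω x • T.ω') := by
  rw [z_eq, Matrix.smul_mulVec, wd_mulVec]

theorem z_ω : T.z *ᵥ T.ω = (2 : ℂ) • T.ω := by
  rw [z_mulVec, q_ω'ω, q_ωω, zero_smul, sub_zero, smul_smul, div_mul_cancel₀ _ T.h_ne]

theorem z_ω' : T.z *ᵥ T.ω' = (-2 : ℂ) • T.ω' := by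
  rw [z_mulVec, q_ω'ω']
  have : T.q T.ω T.ω' = T.h := rfl
  rw [this, zero_smul, zero_sub, smul_neg, smul_smul, div_mul_cancel₀ _ T.h_ne, neg_smul]

theorem wd_skew (u v : Fin r → ℂ) : T.Skew (T.wd u v) := by
  intro i j; simp only [wd]; ring

theorem z_skew : T.Skew T.z := by
  intro i j
  have := T.wd_skew T.ω' T.ω i j
  rw [z_eq]
  simp only [Matrix.smul_apply, smul_eq_mul]
  linear_combination (2 / T.h) * this

theorem z_W {x : Fin r → ℂ} (h1 : T.q T.ω x = 0) (h2 : T.q T.ω' x = 0) : T.z *ᵥ x = 0 := by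
  rw [z_mulVec, h1, h2, zero_smul, zero_smul, sub_zero, smul_zero]

/-- The eigenspace of the Hodge operator for the eigenvalue `2`. -/
theorem eigen_two {x : Fin r → ℂ} (hx : T.z *ᵥ x = (2 : ℂ) • x) : ∃ c : ℂ, x = c • T.ω := by
  have h1 : x = (T.q T.ω' x / T.h) • T.ω - (T.q T.ω x / T.h) • T.ω' := by
    have h2 : (2 : ℂ) • x = (2 : ℂ) • ((T.q T.ω' x / T.h) • T.ω - (T.q T.ω x / T.h) • T.ω') := by
      rw [← hx, z_mulVec]
      funext i
      simp only [Pi.smul_apply, Pi.sub_apply, smul_eq_mul]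
      ring
    exact (smul_right_injective _ (two_ne_zero)) h2
  have h3 : T.q T.ω x = 0 := by
    have h4 := congrArg (T.q T.ω) h1
    rw [map_sub, map_smul, map_smul, q_ωω, smul_zero, zero_sub, smul_eq_mul] at h4
    have h5 : T.q T.ω T.ω' = T.h := rfl
    rw [h5, div_mul_cancel₀ _ T.h_ne] at h4
    have h6 : (2 : ℂ) * T.q T.ω x = 0 := by linear_combination h4
    exact (mul_eq_zero.1 h6).resolve_left two_ne_zero
  refine ⟨T.q T.ω' x / T.h, ?_⟩
  rw [h3, zero_div, zero_smul, sub_zero] at h1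
  exact h1

end K3Type

end Pool.Agent.Q263.K3
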