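import Mathlib
import Pool.Agent.Q263.K3.Alg

/-!
# The Lie algebra generated by moving periods
-/

set_option linter.unusedSectionVars false

namespace Pool.Agent.Q263.K3

open Function Module Matrix

variable {r : ℕ}

/-- The properties of the Lie algebra which are used. -/
structure LieAlg (T : K3Type r) (H : Submodule ℂ (Matrix (Fin r) (Fin r) ℂ)) : Prop where
  skew : ∀ X ∈ H, T.Skew X
  zb : ∀ X ∈ H, T.z * X - X * T.z ∈ H
  br : ∀ X ∈ H, ∀ Y ∈ H, X * Y - Y * X ∈ H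
  conj : ∀ X ∈ H, X.map (starRingEnd ℂ) ∈ H
  ra : ∀ X ∈ H, ∀ τ : ℂ →ₗ[ℚ] ℚ, X.map (fun x => ((τ x : ℚ) : ℂ)) ∈ H

namespace LieAlg

variable {T : K3Type r} {H : Submodule ℂ (Matrix (Fin r) (Fin r) ℂ)} (hH : LieAlg T H)

include hH

theorem low {X : Matrix (Fin r) (Fin r) ℂ} (hX : X ∈ H) :
    ∃ (α : ℂ) (n : Fin r → ℂ), X *ᵥ T.ω = α • T.ω + n ∧ T.q T.ω n = 0 ∧ T.q T.ω' n = 0 ∧
      T.wd T.ω' n ∈ H := by
  have hs := hH.skew X hX
  have hωω' : T.q T.ω T.ω' = T.h := rfl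
  set α : ℂ := T.q T.ω' (X *ᵥ T.ω) / T.h with hα
  set n : Fin r → ℂ := X *ᵥ T.ω - α • T.ω with hn
  set n' : Fin r → ℂ := X *ᵥ T.ω' + α • T.ω' with hn'
  have e1 : X *ᵥ T.ω = α • T.ω + n := by rw [hn]; abel
  have e2 : X *ᵥ T.ω' = -α • T.ω' + n' := by rw [hn']; module
  have k1 : T.q T.ω (X *ᵥ T.ω) = 0 := by
    have := T.skew_q hs T.ω T.ω
    rw [T.q_comm (X *ᵥ T.ω) T.ω] at this
    have h2 : (2 : ℂ) * T.q T.ω (X *ᵥ T.ω) = 0 := by linear_combination this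
    exact (mul_eq_zero.1 h2).resolve_left two_ne_zero
  have k2 : T.q T.ω' (X *ᵥ T.ω') = 0 := by
    have := T.skew_q hs T.ω' T.ω'
    rw [T.q_comm (X *ᵥ T.ω') T.ω'] at this
    have h2 : (2 : ℂ) * T.q T.ω' (X *ᵥ T.ω') = 0 := by linear_combination this
    exact (mul_eq_zero.1 h2).resolve_left two_ne_zero
  have k3 : T.q T.ω' (X *ᵥ T.ω) = α * T.h := by
    rw [hα, div_mul_cancel₀ _ T.h_ne]
  have k4 : T.q T.ω (X *ᵥ T.ω') = -(α * T.h) := by
    have := T.skew_q hs T.ω T.ω'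
    rw [T.q_comm (X *ᵥ T.ω) T.ω', k3] at this
    linear_combination this
  have n1 : T.q T.ω n = 0 := by
    rw [hn, map_sub, map_smul, k1, T.q_ωω, smul_zero, sub_zero]
  have n2 : T.q T.ω' n = 0 := by
    rw [hn, map_sub, map_smul, k3, T.q_ω'ω, smul_eq_mul, sub_self]
  have n3 : T.q T.ω n' = 0 := by
    rw [hn', map_add, map_smul, k4, hωω', smul_eq_mul]; ring
  have n4 : T.q T.ω' n' = 0 := by
    rw [hn', map_add, map_smul, k2, T.q_ω'ω', smul_zero, add_zero]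
  refine ⟨α, n, e1, n1, n2, ?_⟩
  have B1 : T.z * X - X * T.z = (-(2 / T.h)) • (T.wd n' T.ω + T.wd T.ω' n) := by
    have b := T.br_wd hs T.ω' T.ω
    rw [e1, e2, T.wd_add_left, T.wd_add_right, T.wd_smul_left, T.wd_smul_right] at b
    have hz : T.z * X - X * T.z = (-(2 / T.h)) • (X * T.wd T.ω' T.ω - T.wd T.ω' T.ω * X) := by
      rw [T.z_eq, Matrix.smul_mul, Matrix.mul_smul, smul_sub]
      module
    rw [hz, b]
    module
  have hB1 := hH.zb X hX
  rw [B1] at hB1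
  have hB2 := hH.zb _ hB1
  have c1 := T.br_wd T.z_skew n' T.ω
  have c2 := T.br_wd T.z_skew T.ω' n
  rw [T.z_W n3 n4, T.z_ω, T.wd_smul_right] at c1
  rw [T.z_ω', T.z_W n1 n2, T.wd_smul_left] at c2
  have w1 : T.wd 0 T.ω = 0 := by
    ext i j; simp [K3Type.wd]
  have w2 : T.wd T.ω' 0 = 0 := by
    ext i j; simp [K3Type.wd]
  rw [w1, zero_add] at c1
  rw [w2, add_zero] at c2
  have B2 : T.z * ((-(2 / T.h)) • (T.wd n' T.ω + T.wd T.ω' n)) -
      ((-(2 / T.h)) • (T.wd n' T.ω + T.wd T.ω' n)) * T.z =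
      (-(2 / T.h)) • ((2 : ℂ) • T.wd n' T.ω + (-2 : ℂ) • T.wd T.ω' n) := by
    rw [← c1, ← c2, Matrix.smul_mul, Matrix.mul_smul, Matrix.mul_add, Matrix.add_mul]
    module
  rw [B2] at hB2
  have hfin : T.wd T.ω' n = (T.h / 8) • ((-(2 / T.h)) • ((2 : ℂ) • T.wd n' T.ω +
      (-2 : ℂ) • T.wd T.ω' n) - (2 : ℂ) • ((-(2 / T.h)) • (T.wd n' T.ω + T.wd T.ω' n))) := by
    have hh := T.h_ne
    ext i j
    simp only [Matrix.smul_apply, Matrix.sub_apply, Matrix.add_apply, smul_eq_mul]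
    field_simp
    ring
  rw [hfin]
  exact H.smul_mem _ (H.sub_mem hB2 (H.smul_mem _ hB1))

end LieAlg

/-- The vectors `n` orthogonal to `ω`, `conj ω` with `conj ω ∧ n` in `H`. -/
def Nm (T : K3Type r) (H : Submodule ℂ (Matrix (Fin r) (Fin r) ℂ)) :
    Submodule ℂ (Fin r → ℂ) where
  carrier := {n | T.q T.ω n = 0 ∧ T.q T.ω' n = 0 ∧ T.wd T.ω' n ∈ H}
  add_mem' := by
    rintro a b ⟨a1, a2, a3⟩ ⟨b1, b2, b3⟩
    refine ⟨by rw [map_add, a1, b1, add_zero], by rw [map_add, a2, b2, add_zero], ?_⟩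
    rw [T.wd_add_right]; exact H.add_mem a3 b3
  zero_mem' := by
    refine ⟨map_zero _, map_zero _, ?_⟩
    have : T.wd T.ω' 0 = 0 := by ext i j; simp [K3Type.wd]
    rw [this]; exact H.zero_mem
  smul_mem' := by
    rintro c a ⟨a1, a2, a3⟩
    refine ⟨by rw [map_smul, a1, smul_zero], by rw [map_smul, a2, smul_zero], ?_⟩
    rw [T.wd_smul_right]; exact H.smul_mem _ a3

/-- The vectors `n` orthogonal to `ω`, `conj ω` with `ω ∧ n` in `H`. -/
def Np (T : K3Type r) (H : Submodule ℂ (Matrix (Fin r) (Fin r) ℂ)) :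
    Submodule ℂ (Fin r → ℂ) where
  carrier := {n | T.q T.ω n = 0 ∧ T.q T.ω' n = 0 ∧ T.wd T.ω n ∈ H}
  add_mem' := by
    rintro a b ⟨a1, a2, a3⟩ ⟨b1, b2, b3⟩
    refine ⟨by rw [map_add, a1, b1, add_zero], by rw [map_add, a2, b2, add_zero], ?_⟩
    rw [T.wd_add_right]; exact H.add_mem a3 b3
  zero_mem' := by
    refine ⟨map_zero _, map_zero _, ?_⟩
    have : T.wd T.ω 0 = 0 := by ext i j; simp [K3Type.wd]
    rw [this]; exact H.zero_mem
  smul_mem' := by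
    rintro c a ⟨a1, a2, a3⟩
    refine ⟨by rw [map_smul, a1, smul_zero], by rw [map_smul, a2, smul_zero], ?_⟩
    rw [T.wd_smul_right]; exact H.smul_mem _ a3

/-- The orthogonal complement of `ω`, `conj ω`. -/
def Wsp (T : K3Type r) : Submodule ℂ (Fin r → ℂ) where
  carrier := {n | T.q T.ω n = 0 ∧ T.q T.ω' n = 0}
  add_mem' := by
    rintro a b ⟨a1, a2⟩ ⟨b1, b2⟩
    exact ⟨by rw [map_add, a1, b1, add_zero], by rw [map_add, a2, b2, add_zero]⟩
  zero_mem' := ⟨map_zero _, map_zero _⟩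
  smul_mem' := by
    rintro c a ⟨a1, a2⟩
    exact ⟨by rw [map_smul, a1, smul_zero], by rw [map_smul, a2, smul_zero]⟩

theorem K3Type.q_ω_cj (T : K3Type r) (n : Fin r → ℂ) :
    T.q T.ω (cj n) = starRingEnd ℂ (T.q T.ω' n) := by
  rw [← T.q_cj, T.cj_ω']

theorem K3Type.q_ω'_cj (T : K3Type r) (n : Fin r → ℂ) :
    T.q T.ω' (cj n) = starRingEnd ℂ (T.q T.ω n) := by
  rw [← T.q_cj, T.cj_ω]

theorem LieAlg.cj_Nm {T : K3Type r} {H : Submodule ℂ (Matrix (Fin r) (Fin r) ℂ)}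
    (hH : LieAlg T H) {n : Fin r → ℂ} (hn : n ∈ Nm T H) : cj n ∈ Np T H := by
  obtain ⟨h1, h2, h3⟩ := hn
  refine ⟨by rw [T.q_ω_cj, h2, map_zero], by rw [T.q_ω'_cj, h1, map_zero], ?_⟩
  have := hH.conj _ h3
  rwa [← T.wd_cj, T.cj_ω'] at this

theorem LieAlg.cj_Np {T : K3Type r} {H : Submodule ℂ (Matrix (Fin r) (Fin r) ℂ)}
    (hH : LieAlg T H) {n : Fin r → ℂ} (hn : n ∈ Np T H) : cj n ∈ Nm T H := by
  obtain ⟨h1, h2, h3⟩ := hn
  refine ⟨by rw [T.q_ω_cj, h2, map_zero], by rw [T.q_ω'_cj, h1, map_zero], ?_⟩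
  have := hH.conj _ h3
  rwa [← T.wd_cj, T.cj_ω] at this

theorem K3Type.q_add_cj (T : K3Type r) {n : Fin r → ℂ} (hreal : cj n = n) (hn : n ≠ 0)
    (h1 : T.q T.ω n = 0) : T.q n n ≠ 0 := by
  have hx : ∀ i, n i = ((n i).re : ℂ) := by
    intro i
    have := congrFun hreal i
    exact (Complex.conj_eq_iff_re.1 this).symm
  have h2 := T.neg (fun i => (n i).re) (by
    intro h0
    apply hn
    funext i
    rw [hx i]
    have := congrFun h0 i
    simp only [Pi.zero_apply] at this ⊢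
    rw [this]; simp) (by
    rw [T.q_apply] at h1
    rw [← h1]
    exact Finset.sum_congr rfl fun i _ => by rw [← hx i])
  have h3 : T.q n n = ((∑ i, (T.d i : ℝ) * (n i).re ^ 2 : ℝ) : ℂ) := by
    rw [T.q_apply]
    push_cast
    refine Finset.sum_congr rfl fun i _ => ?_
    rw [← hx i]; ring
  rw [h3]
  exact_mod_cast h2.ne

/-- Definiteness on the orthogonal complement of the period plane. -/
theorem K3Type.q_self_cj (T : K3Type r) {n : Fin r → ℂ} (h1 : T.q T.ω n = 0)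
    (h2 : T.q T.ω' n = 0) (h3 : T.q n (cj n) = 0) : n = 0 := by
  -- real and imaginary parts
  have g1 : T.q T.ω (cj n) = 0 := by rw [T.q_ω_cj, h2, map_zero]
  have hre : ∑ i, (T.d i : ℂ) * T.ω i * ((n i).re : ℂ) = 0 := by
    have : ∑ i, (T.d i : ℂ) * T.ω i * ((n i).re : ℂ) = (1 / 2) * (T.q T.ω n + T.q T.ω (cj n)) := by
      rw [T.q_apply, T.q_apply, ← Finset.sum_add_distrib, Finset.mul_sum]
      refine Finset.sum_congr rfl fun i _ => ?_
      rw [Complex.re_eq_add_conj, cj]; ring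
    rw [this, h1, g1]; ring
  have him : ∑ i, (T.d i : ℂ) * T.ω i * ((n i).im : ℂ) = 0 := by
    have : ∑ i, (T.d i : ℂ) * T.ω i * ((n i).im : ℂ) =
        (1 / (2 * Complex.I)) * (T.q T.ω n - T.q T.ω (cj n)) := by
      rw [T.q_apply, T.q_apply, ← Finset.sum_sub_distrib, Finset.mul_sum]
      refine Finset.sum_congr rfl fun i _ => ?_
      rw [Complex.im_eq_sub_conj, cj]; ring
    rw [this, h1, g1]; ring
  have hsum : ∑ i, (T.d i : ℝ) * (n i).re ^ 2 + ∑ i, (T.d i : ℝ) * (n i).im ^ 2 = 0 := by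
    have : T.q n (cj n) = ((∑ i, (T.d i : ℝ) * (n i).re ^ 2 + ∑ i, (T.d i : ℝ) * (n i).im ^ 2 : ℝ)
        : ℂ) := by
      rw [T.q_apply, ← Finset.sum_add_distrib]
      push_cast
      refine Finset.sum_congr rfl fun i _ => ?_
      rw [mul_assoc, cj, Complex.mul_conj, Complex.normSq_apply]
      push_cast; ring
    rw [this] at h3
    exact_mod_cast h3
  by_contra hne
  have hle : ∀ x : Fin r → ℝ, ∑ i, (T.d i : ℂ) * T.ω i * (x i : ℂ) = 0 →
      ∑ i, (T.d i : ℝ) * x i ^ 2 ≤ 0 := by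
    intro x hx
    rcases eq_or_ne x 0 with rfl | h0
    · simp
    · exact (T.neg x h0 hx).le
  have a1 := hle _ hre
  have a2 := hle _ him
  by_cases hr0 : (fun i => (n i).re) = 0
  · by_cases hi0 : (fun i => (n i).im) = 0
    · apply hne
      funext i
      exact Complex.ext (congrFun hr0 i) (congrFun hi0 i)
    · have := T.neg _ hi0 him
      linarith
  · have := T.neg _ hr0 hre
    linarith

theorem Nm_le (T : K3Type r) (H : Submodule ℂ (Matrix (Fin r) (Fin r) ℂ)) : Nm T H ≤ Wsp T :=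
  fun _ h => ⟨h.1, h.2.1⟩

theorem Np_le (T : K3Type r) (H : Submodule ℂ (Matrix (Fin r) (Fin r) ℂ)) : Np T H ≤ Wsp T :=
  fun _ h => ⟨h.1, h.2.1⟩

/-- The plane spanned by `ω` and its conjugate. -/
def Pl (T : K3Type r) : Submodule ℂ (Fin r → ℂ) := Submodule.span ℂ {T.ω, T.ω'}

theorem K3Type.linInd (T : K3Type r) : LinearIndependent ℂ ![T.ω, T.ω'] := by
  rw [LinearIndependent.pair_iff]
  intro s t hst
  have h1 := congrArg (T.q T.ω) hst
  have h2 := congrArg (T.q T.ω') hst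
  have hωω' : T.q T.ω T.ω' = T.h := rfl
  rw [map_add, map_smul, map_smul, T.q_ωω, smul_zero, zero_add, map_zero, hωω', smul_eq_mul] at h1
  rw [map_add, map_smul, map_smul, T.q_ω'ω', smul_zero, add_zero, map_zero, T.q_ω'ω,
    smul_eq_mul] at h2
  exact ⟨(mul_eq_zero.1 h2).resolve_right T.h_ne, (mul_eq_zero.1 h1).resolve_right T.h_ne⟩

theorem finrank_Pl (T : K3Type r) : finrank ℂ (Pl T) = 2 := by
  have h := finrank_span_eq_card T.linInd
  have h2 : Set.range ![T.ω, T.ω'] = {T.ω, T.ω'} := by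
    ext x
    simp only [Set.mem_range, Set.mem_insert_iff, Set.mem_singleton_iff]
    constructor
    · rintro ⟨i, rfl⟩
      fin_cases i
      · exact Or.inl rfl
      · exact Or.inr rfl
    · rintro (rfl | rfl)
      · exact ⟨0, rfl⟩
      · exact ⟨1, rfl⟩
  have h3 : Pl T = Submodule.span ℂ (Set.range ![T.ω, T.ω']) := by rw [h2]; rfl
  rw [h3, h]
  rfl

theorem disj_Pl (T : K3Type r) : Disjoint (Wsp T) (Pl T) := by
  rw [Submodule.disjoint_def]
  rintro x ⟨h1, h2⟩ hx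
  obtain ⟨a, b, rfl⟩ := Submodule.mem_span_pair.1 hx
  have hωω' : T.q T.ω T.ω' = T.h := rfl
  rw [map_add, map_smul, map_smul, T.q_ωω, smul_zero, zero_add, hωω', smul_eq_mul] at h1
  rw [map_add, map_smul, map_smul, T.q_ω'ω', smul_zero, add_zero, T.q_ω'ω, smul_eq_mul] at h2
  rw [(mul_eq_zero.1 h2).resolve_right T.h_ne, (mul_eq_zero.1 h1).resolve_right T.h_ne,
    zero_smul, zero_smul, add_zero]

theorem finrank_Wsp (T : K3Type r) : finrank ℂ (Wsp T) + 2 ≤ r := by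
  have h := Submodule.finrank_add_finrank_le_of_disjoint (disj_Pl T)
  rw [finrank_Pl, Module.finrank_fintype_fun_eq_card, Fintype.card_fin] at h
  exact h

end Pool.Agent.Q263.K3
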