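import Mathlib
import Pool.Agent.Q263.K3.Lie

/-!
# Many moving periods: the two spaces `Nm`, `Np` agree
-/

set_option linter.unusedSectionVars false

namespace Pool.Agent.Q263.K3

open Function Module Matrix

variable {r : ℕ} {T : K3Type r} {H : Submodule ℂ (Matrix (Fin r) (Fin r) ℂ)}

theorem linearIndependent_cj {ι : Type*} [Fintype ι] {v : ι → Fin r → ℂ}
    (hv : LinearIndependent ℂ v) : LinearIndependent ℂ fun i => cj (v i) := by
  rw [Fintype.linearIndependent_iff] at hv ⊢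
  intro g hg i
  have h1 : ∑ i, starRingEnd ℂ (g i) • v i = 0 := by
    have h2 : cj (∑ i, starRingEnd ℂ (g i) • v i) = ∑ i, g i • cj (v i) := by
      funext k
      simp only [cj, Finset.sum_apply, Pi.smul_apply, smul_eq_mul, map_sum, map_mul,
        Complex.conj_conj]
    rw [← cj_eq_zero, h2, hg]
  have := hv _ h1 i
  simpa using this

theorem card_le_finrank {ι : Type*} [Fintype ι] {v : ι → Fin r → ℂ}
    (hv : LinearIndependent ℂ v) (N : Submodule ℂ (Fin r → ℂ)) (hN : ∀ i, v i ∈ N) :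
    Fintype.card ι ≤ finrank ℂ N := by
  have h : LinearIndependent ℂ (fun i => (⟨v i, hN i⟩ : N)) :=
    LinearIndependent.of_comp N.subtype (by exact hv)
  exact h.fintype_card_le_finrank

/-- There is a nonzero real vector in both spaces. -/
theorem LieAlg.exists_real (hH : LieAlg T H) {ι : Type*} [Fintype ι] {v : ι → Fin r → ℂ}
    (hv : LinearIndependent ℂ v) (hN : ∀ i, v i ∈ Nm T H) (hr : r < 2 * Fintype.card ι + 2) :
    ∃ w : Fin r → ℂ, w ∈ Nm T H ∧ w ∈ Np T H ∧ T.q w w ≠ 0 := by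
  have h1 := card_le_finrank hv _ hN
  have h2 := card_le_finrank (linearIndependent_cj hv) (Np T H) fun i => hH.cj_Nm (hN i)
  have h3 := finrank_Wsp T
  have h4 : ¬ Disjoint (Nm T H) (Np T H) := by
    intro hd
    have h5 := Submodule.finrank_add_finrank_le_of_disjoint
      (s := (Nm T H).comap (Wsp T).subtype) (t := (Np T H).comap (Wsp T).subtype) (by
        rw [Submodule.disjoint_def] at hd ⊢
        intro x hx1 hx2
        exact Subtype.ext (hd x.1 hx1 hx2))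
    rw [(Submodule.comapSubtypeEquivOfLe (Nm_le T H)).finrank_eq,
      (Submodule.comapSubtypeEquivOfLe (Np_le T H)).finrank_eq] at h5
    omega
  rw [Submodule.disjoint_def] at h4
  push Not at h4
  obtain ⟨n, n1, n2, n0⟩ := h4
  by_cases ha : n + cj n = 0
  · refine ⟨Complex.I • n, (Nm T H).smul_mem _ n1, (Np T H).smul_mem _ n2, ?_⟩
    have hc : cj n = -n := by
      rw [eq_neg_iff_add_eq_zero, add_comm]; exact ha
    refine T.q_add_cj ?_ (smul_ne_zero Complex.I_ne_zero n0) ?_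
    · rw [cj_smul, hc, Complex.conj_I, neg_smul, smul_neg, neg_neg]
    · rw [map_smul, n1.1, smul_zero]
  · refine ⟨n + cj n, (Nm T H).add_mem n1 (hH.cj_Np n2), (Np T H).add_mem n2 (hH.cj_Nm n1), ?_⟩
    refine T.q_add_cj ?_ ha ?_
    · rw [cj_add, cj_cj, add_comm]
    · exact ((Nm T H).add_mem n1 (hH.cj_Np n2)).1

/-- The bracket of `ω ∧ n` and `conj ω ∧ n'`. -/
theorem K3Type.br1 (T : K3Type r) {n n' : Fin r → ℂ} (_n1 : T.q T.ω n = 0) (n2 : T.q T.ω' n = 0)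
    (m1 : T.q T.ω n' = 0) :
    T.wd T.ω n * T.wd T.ω' n' - T.wd T.ω' n' * T.wd T.ω n =
      T.h • T.wd n n' - T.q n n' • T.wd T.ω' T.ω := by
  have hωω' : T.q T.ω T.ω' = T.h := rfl
  rw [T.br_wd (T.wd_skew _ _), T.wd_mulVec, T.wd_mulVec, hωω', T.q_comm n T.ω', n2, m1]
  rw [zero_smul, sub_zero, zero_smul, zero_sub, T.wd_smul_left]
  have : T.wd T.ω' (-(T.q n n' • T.ω)) = -(T.q n n' • T.wd T.ω' T.ω) := by
    rw [← neg_smul, T.wd_smul_right, neg_smul]
  rw [this]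
  abel

theorem LieAlg.Nm_le_Np (hH : LieAlg T H) {w : Fin r → ℂ} (w2 : w ∈ Np T H)
    (hw : T.q w w ≠ 0) : Nm T H ≤ Np T H := by
  intro n hn
  refine ⟨hn.1, hn.2.1, ?_⟩
  have b1 := hH.br _ w2.2.2 _ hn.2.2
  rw [T.br1 w2.1 w2.2.1 hn.1] at b1
  have b2 := hH.br _ b1 _ w2.2.2
  have hωω' : T.q T.ω T.ω' = T.h := rfl
  rw [T.br_wd (hH.skew _ b1)] at b2
  rw [Matrix.sub_mulVec, Matrix.sub_mulVec, Matrix.smul_mulVec, Matrix.smul_mulVec,
    Matrix.smul_mulVec, Matrix.smul_mulVec, T.wd_mulVec, T.wd_mulVec, T.wd_mulVec, T.wd_mulVec,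
    T.q_comm w T.ω, T.q_comm n T.ω, w2.1, hn.1, T.q_ω'ω, T.q_ωω, w2.2.1] at b2
  have e : T.wd T.ω n = (1 / (T.h * T.q w w)) •
      (T.wd (T.h • ((0 : ℂ) • n - (0 : ℂ) • w) - T.q w n • (T.h • T.ω - (0 : ℂ) • T.ω')) w +
        T.wd T.ω (T.h • (T.q w w • n - T.q n w • w) - T.q w n • ((0 : ℂ) • T.ω - (0 : ℂ) • T.ω')) +
        (2 * T.h * T.q w n) • T.wd T.ω w) := by
    have hh := T.h_ne
    rw [T.q_comm n w]
    ext i j
    simp only [K3Type.wd, Matrix.smul_apply, Matrix.add_apply, Pi.smul_apply, Pi.sub_apply,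
      smul_eq_mul]
    field_simp
    ring
  rw [e]
  exact H.smul_mem _ (H.add_mem b2 (H.smul_mem _ w2.2.2))

theorem LieAlg.Np_le_Nm (hH : LieAlg T H) (h : Nm T H ≤ Np T H) : Np T H ≤ Nm T H := by
  intro n hn
  have h1 := hH.cj_Np (h (hH.cj_Np hn))
  rwa [cj_cj] at h1

theorem LieAlg.wd_ω'ω_mem (hH : LieAlg T H) {w : Fin r → ℂ} (w1 : w ∈ Nm T H)
    (w2 : w ∈ Np T H) (hw : T.q w w ≠ 0) : T.wd T.ω' T.ω ∈ H := by
  have b1 := hH.br _ w2.2.2 _ w1.2.2
  rw [T.br1 w2.1 w2.2.1 w1.1, T.wd_self, smul_zero, zero_sub] at b1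
  have : T.wd T.ω' T.ω = (-(1 / T.q w w)) • -(T.q w w • T.wd T.ω' T.ω) := by
    ext i j
    simp only [Matrix.smul_apply, Matrix.neg_apply, smul_eq_mul]
    field_simp
  rw [this]
  exact H.smul_mem _ b1

theorem LieAlg.z_mem (h : T.wd T.ω' T.ω ∈ H) : T.z ∈ H := by
  rw [T.z_eq]; exact H.smul_mem _ h

theorem LieAlg.wd_NN_mem (hH : LieAlg T H) (h : T.wd T.ω' T.ω ∈ H) {n n' : Fin r → ℂ}
    (hn : n ∈ Np T H) (hn' : n' ∈ Nm T H) : T.wd n n' ∈ H := by
  have b1 := hH.br _ hn.2.2 _ hn'.2.2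
  rw [T.br1 hn.1 hn.2.1 hn'.1] at b1
  have : T.wd n n' = (1 / T.h) • ((T.h • T.wd n n' - T.q n n' • T.wd T.ω' T.ω) +
      T.q n n' • T.wd T.ω' T.ω) := by
    have hh := T.h_ne
    ext i j
    simp only [Matrix.smul_apply, Matrix.sub_apply, Matrix.add_apply, smul_eq_mul]
    field_simp
    ring
  rw [this]
  exact H.smul_mem _ (H.add_mem b1 (H.smul_mem _ h))

end Pool.Agent.Q263.K3
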