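import Mathlib
import Pool.Agent.Q263.K3.Full

/-!
# The invariant subspace and its projector
-/

set_option linter.unusedSectionVars false

namespace Pool.Agent.Q263.K3

open Function Module Matrix

variable {r : ℕ} {T : K3Type r} {H : Submodule ℂ (Matrix (Fin r) (Fin r) ℂ)}

/-- The space spanned by the period plane and `Nm`. -/
def Msp (T : K3Type r) (H : Submodule ℂ (Matrix (Fin r) (Fin r) ℂ)) :
    Submodule ℂ (Fin r → ℂ) := Pl T ⊔ Nm T H

theorem ω_mem_M : T.ω ∈ Msp T H :=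
  Submodule.mem_sup_left (Submodule.subset_span (Set.mem_insert _ _))

theorem ω'_mem_M : T.ω' ∈ Msp T H :=
  Submodule.mem_sup_left (Submodule.subset_span (Set.mem_insert_of_mem _ rfl))

theorem N_le_M : Nm T H ≤ Msp T H := le_sup_right

theorem mem_M_iff {x : Fin r → ℂ} : x ∈ Msp T H ↔
    ∃ a b : ℂ, ∃ n ∈ Nm T H, x = a • T.ω + b • T.ω' + n := by
  constructor
  · intro hx
    obtain ⟨p, hp, n, hn, rfl⟩ := Submodule.mem_sup.1 hx
    obtain ⟨a, b, rfl⟩ := Submodule.mem_span_pair.1 hp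
    exact ⟨a, b, n, hn, rfl⟩
  · rintro ⟨a, b, n, hn, rfl⟩
    exact add_mem (add_mem (Submodule.smul_mem _ _ ω_mem_M) (Submodule.smul_mem _ _ ω'_mem_M))
      (N_le_M hn)

theorem LieAlg.stable (hH : LieAlg T H) (h1 : Nm T H ≤ Np T H) (h0 : T.wd T.ω' T.ω ∈ H)
    {X : Matrix (Fin r) (Fin r) ℂ} (hX : X ∈ H) {x : Fin r → ℂ} (hx : x ∈ Msp T H) :
    X *ᵥ x ∈ Msp T H := by
  have h2 := hH.Np_le_Nm h1
  have hωω' : T.q T.ω T.ω' = T.h := rfl
  have aω : ∀ {X : Matrix (Fin r) (Fin r) ℂ}, X ∈ H → X *ᵥ T.ω ∈ Msp T H := by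
    intro X hX
    obtain ⟨α, n, e, n1, n2, n3⟩ := hH.low hX
    rw [e]
    exact add_mem (Submodule.smul_mem _ _ ω_mem_M) (N_le_M ⟨n1, n2, n3⟩)
  have aω' : X *ᵥ T.ω' ∈ Msp T H := by
    obtain ⟨α, n, e, n1, n2, n3⟩ := hH.low (hH.conj X hX)
    have e2 : X *ᵥ T.ω' = starRingEnd ℂ α • T.ω' + cj n := by
      have e3 := congrArg cj e
      rw [cj_add, cj_smul, T.cj_ω] at e3
      rw [← e3]
      funext i
      simp only [cj, Matrix.mulVec, dotProduct, K3Type.ω', Matrix.map_apply, map_sum, map_mul,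
        Complex.conj_conj]
    rw [e2]
    exact add_mem (Submodule.smul_mem _ _ ω'_mem_M) (N_le_M (h2 (hH.cj_Nm ⟨n1, n2, n3⟩)))
  have aN : ∀ n ∈ Nm T H, X *ᵥ n ∈ Msp T H := by
    intro n hn
    obtain ⟨α, m, e, m1, m2, m3⟩ := hH.low hX
    have hm : m ∈ Nm T H := ⟨m1, m2, m3⟩
    have b1 := hH.br X hX _ (h1 hn).2.2
    rw [T.br_wd (hH.skew X hX), e, T.wd_add_left, T.wd_smul_left] at b1
    have b2 : T.wd T.ω (X *ᵥ n) ∈ H := by
      have : T.wd T.ω (X *ᵥ n) = (α • T.wd T.ω n + T.wd m n + T.wd T.ω (X *ᵥ n)) -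
        α • T.wd T.ω n - T.wd m n := by abel
      rw [this]
      exact H.sub_mem (H.sub_mem b1 (H.smul_mem _ (h1 hn).2.2)) (hH.wd_NN_mem h0 (h1 hm) hn)
    set y := X *ᵥ n with hy
    set v := y - (T.q T.ω' y / T.h) • T.ω - (T.q T.ω y / T.h) • T.ω' with hv
    have v1 : T.q T.ω v = 0 := by
      rw [hv, map_sub, map_sub, map_smul, map_smul, T.q_ωω, hωω', smul_zero, smul_eq_mul,
        div_mul_cancel₀ _ T.h_ne]
      ring
    have v2 : T.q T.ω' v = 0 := by
      rw [hv, map_sub, map_sub, map_smul, map_smul, T.q_ω'ω', T.q_ω'ω, smul_zero, smul_eq_mul,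
        div_mul_cancel₀ _ T.h_ne]
      ring
    have ey : y = (T.q T.ω' y / T.h) • T.ω + (T.q T.ω y / T.h) • T.ω' + v := by
      rw [hv]; abel
    have v3 : T.wd T.ω v ∈ H := by
      have : T.wd T.ω v = T.wd T.ω y + (T.q T.ω y / T.h) • T.wd T.ω' T.ω := by
        conv_rhs => rw [ey]
        rw [T.wd_add_right, T.wd_add_right, T.wd_smul_right, T.wd_smul_right, T.wd_self,
          T.wd_swap T.ω' T.ω, ← ey]
        module
      rw [this]
      exact H.add_mem b2 (H.smul_mem _ h0)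
    rw [ey]
    exact add_mem (add_mem (Submodule.smul_mem _ _ ω_mem_M) (Submodule.smul_mem _ _ ω'_mem_M))
      (N_le_M (h2 ⟨v1, v2, v3⟩))
  obtain ⟨a, b, n, hn, rfl⟩ := mem_M_iff.1 hx
  rw [Matrix.mulVec_add, Matrix.mulVec_add, Matrix.mulVec_smul, Matrix.mulVec_smul]
  exact add_mem (add_mem (Submodule.smul_mem _ _ (aω hX)) (Submodule.smul_mem _ _ aω'))
    (aN n hn)

theorem K3Type.isRefl (T : K3Type r) : LinearMap.BilinForm.IsRefl (T.q : LinearMap.BilinForm ℂ _) := by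
  intro x y hxy
  rw [T.q_comm]; exact hxy

theorem LieAlg.isCompl (hH : LieAlg T H) (h1 : Nm T H ≤ Np T H) :
    IsCompl (Msp T H) (LinearMap.BilinForm.orthogonal (T.q : LinearMap.BilinForm ℂ _) (Msp T H)) := by
  have h2 := hH.Np_le_Nm h1
  have hωω' : T.q T.ω T.ω' = T.h := rfl
  rw [LinearMap.BilinForm.isCompl_orthogonal_iff_disjoint T.isRefl, Submodule.disjoint_def]
  intro x hx hx2
  obtain ⟨a, b, n, hn, rfl⟩ := mem_M_iff.1 hx
  have k1 : T.q T.ω (a • T.ω + b • T.ω' + n) = 0 := hx2 T.ω ω_mem_M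
  have k2 : T.q T.ω' (a • T.ω + b • T.ω' + n) = 0 := hx2 T.ω' ω'_mem_M
  rw [map_add, map_add, map_smul, map_smul, T.q_ωω, hωω', hn.1, smul_zero, zero_add, add_zero,
    smul_eq_mul] at k1
  rw [map_add, map_add, map_smul, map_smul, T.q_ω'ω, T.q_ω'ω', hn.2.1, smul_zero, add_zero,
    add_zero, smul_eq_mul] at k2
  have hb := (mul_eq_zero.1 k1).resolve_right T.h_ne
  have ha := (mul_eq_zero.1 k2).resolve_right T.h_ne
  subst hb ha
  have k3 : T.q (cj n) ((0 : ℂ) • T.ω + (0 : ℂ) • T.ω' + n) = 0 :=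
    hx2 (cj n) (N_le_M (h2 (hH.cj_Nm hn)))
  rw [zero_smul, zero_smul, zero_add, zero_add] at k3 ⊢
  rw [T.q_comm] at k3
  exact T.q_self_cj hn.1 hn.2.1 k3

/-- There is a matrix which commutes with `H` and projects onto `Msp`. -/
theorem LieAlg.exists_proj (hH : LieAlg T H) (h1 : Nm T H ≤ Np T H)
    (h0 : T.wd T.ω' T.ω ∈ H) : ∃ P : Matrix (Fin r) (Fin r) ℂ, (∀ X ∈ H, X * P = P * X) ∧
      (∀ x ∈ Msp T H, P *ᵥ x = x) ∧ ∀ x, P *ᵥ x ∈ Msp T H := by
  have hc := hH.isCompl h1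
  set M := Msp T H with hM
  set M' := LinearMap.BilinForm.orthogonal (T.q : LinearMap.BilinForm ℂ _) M with hM'
  refine ⟨LinearMap.toMatrix' (Submodule.projection M M' hc), ?_, ?_, ?_⟩
  · intro X hX
    have hstab := fun x hx => hH.stable h1 h0 hX (x := x) hx
    have hstab' : ∀ x ∈ M', X *ᵥ x ∈ M' := by
      intro x hx y hy
      have h3 := T.skew_q (hH.skew X hX) y x
      have h4 : T.q (X *ᵥ y) x = 0 := hx _ (hstab y hy)
      change T.q y (X *ᵥ x) = 0
      rw [h4] at h3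
      linear_combination h3
    have hcomm : (Matrix.toLin' X) ∘ₗ (Submodule.projection M M' hc) =
        (Submodule.projection M M' hc) ∘ₗ (Matrix.toLin' X) := by
      apply LinearMap.ext
      intro x
      obtain ⟨y, hy, y', hy', rfl⟩ : ∃ y ∈ M, ∃ y' ∈ M', y + y' = x := by
        have : x ∈ M ⊔ M' := by rw [hc.sup_eq_top]; trivial
        exact Submodule.mem_sup.1 this
      simp only [LinearMap.comp_apply, map_add, Matrix.toLin'_apply]
      have p1 : Submodule.projection M M' hc y = y := Submodule.projection_apply_of_mem_left hc hy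
      have p2 : Submodule.projection M M' hc y' = 0 :=
        (Submodule.projection_apply_eq_zero_iff hc).2 hy'
      have p3 : Submodule.projection M M' hc (X *ᵥ y) = X *ᵥ y :=
        Submodule.projection_apply_of_mem_left hc (hstab y hy)
      have p4 : Submodule.projection M M' hc (X *ᵥ y') = 0 :=
        (Submodule.projection_apply_eq_zero_iff hc).2 (hstab' y' hy')
      rw [p1, p2, p3, p4, Matrix.mulVec_zero]
    have h5 := congrArg LinearMap.toMatrix' hcomm
    rw [LinearMap.toMatrix'_comp, LinearMap.toMatrix'_comp, LinearMap.toMatrix'_toLin'] at h5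
    exact h5
  · intro x hx
    rw [LinearMap.toMatrix'_mulVec]
    exact Submodule.projection_apply_of_mem_left hc hx
  · intro x
    rw [LinearMap.toMatrix'_mulVec]
    exact Submodule.projection_apply_mem hc x

/-- Matrices which commute with `H` are scalar, if the rational matrices which commute with the
Hodge operator are scalar. -/
theorem LieAlg.scalar (hH : LieAlg T H) (hz : T.z ∈ H)
    (hsc : ∀ a : Matrix (Fin r) (Fin r) ℚ,
      a.map (fun x => (x : ℂ)) * T.z = T.z * a.map (fun x => (x : ℂ)) → ∃ c : ℚ, a = c • 1)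
    {P : Matrix (Fin r) (Fin r) ℂ} (hP : ∀ X ∈ H, X * P = P * X) :
    (∀ i j, i ≠ j → P i j = 0) ∧ ∀ i j, P i i = P j j := by
  have key : ∀ τ : ℂ →ₗ[ℚ] ℚ, ∃ c : ℚ, (P.map τ) = c • (1 : Matrix (Fin r) (Fin r) ℚ) := by
    intro τ
    apply hsc
    ext i j
    rw [← sub_eq_zero]
    rw [← Module.forall_dual_apply_eq_zero_iff ℚ]
    intro τ'
    have h1 := hP _ (hH.ra _ hz τ')
    have h2 := congrArg τ (congrFun (congrFun h1 i) j)
    rw [Matrix.mul_apply, Matrix.mul_apply, map_sum, map_sum] at h2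
    rw [Matrix.mul_apply, Matrix.mul_apply, map_sub, map_sum, map_sum, sub_eq_zero]
    have e1 : ∀ k, τ' ((Matrix.map (P.map τ) (fun x => (x : ℂ))) i k * T.z k j) =
        τ (P i k * (Matrix.map T.z (fun x => ((τ' x : ℚ) : ℂ))) k j) := by
      intro k
      simp only [Matrix.map_apply]
      have a1 : ((τ (P i k) : ℚ) : ℂ) * T.z k j = (τ (P i k)) • T.z k j := by
        rw [Rat.smul_def]
      have a2 : P i k * ((τ' (T.z k j) : ℚ) : ℂ) = (τ' (T.z k j)) • P i k := by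
        rw [Rat.smul_def, mul_comm]
      rw [a1, a2, map_smul, map_smul, smul_eq_mul, smul_eq_mul, mul_comm]
    have e2 : ∀ k, τ' (T.z i k * (Matrix.map (P.map τ) (fun x => (x : ℂ))) k j) =
        τ ((Matrix.map T.z (fun x => ((τ' x : ℚ) : ℂ))) i k * P k j) := by
      intro k
      simp only [Matrix.map_apply]
      have a1 : T.z i k * ((τ (P k j) : ℚ) : ℂ) = (τ (P k j)) • T.z i k := by
        rw [Rat.smul_def, mul_comm]
      have a2 : ((τ' (T.z i k) : ℚ) : ℂ) * P k j = (τ' (T.z i k)) • P k j := by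
        rw [Rat.smul_def]
      rw [a1, a2, map_smul, map_smul, smul_eq_mul, smul_eq_mul, mul_comm]
    rw [Finset.sum_congr rfl fun k _ => e1 k, Finset.sum_congr rfl fun k _ => e2 k]
    exact h2.symm
  constructor
  · intro i j hij
    rw [← Module.forall_dual_apply_eq_zero_iff ℚ]
    intro τ
    obtain ⟨c, hc⟩ := key τ
    have := congrFun (congrFun hc i) j
    rw [Matrix.map_apply, Matrix.smul_apply, Matrix.one_apply_ne hij, smul_zero] at this
    exact this
  · intro i j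
    rw [← sub_eq_zero, ← Module.forall_dual_apply_eq_zero_iff ℚ]
    intro τ
    obtain ⟨c, hc⟩ := key τ
    have a1 := congrFun (congrFun hc i) i
    have a2 := congrFun (congrFun hc j) j
    rw [Matrix.map_apply, Matrix.smul_apply, Matrix.one_apply_eq] at a1 a2
    rw [map_sub]
    change τ (P i i) - τ (P j j) = 0
    rw [a1, a2, sub_self]

/-- The conclusion: all infinitesimal rotations are in `H`. -/
theorem LieAlg.full (hH : LieAlg T H) {w : Fin r → ℂ} (w2 : w ∈ Np T H) (hw : T.q w w ≠ 0)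
    (hsc : ∀ a : Matrix (Fin r) (Fin r) ℚ,
      a.map (fun x => (x : ℂ)) * T.z = T.z * a.map (fun x => (x : ℂ)) → ∃ c : ℚ, a = c • 1) :
    T.z ∈ H ∧ ∀ x y, T.wd x y ∈ H := by
  have h1 := hH.Nm_le_Np w2 hw
  have w1 := hH.Np_le_Nm h1 w2
  have h0 := hH.wd_ω'ω_mem w1 w2 hw
  have hz := LieAlg.z_mem h0
  obtain ⟨P, P1, P2, P3⟩ := hH.exists_proj h1 h0
  obtain ⟨s1, s2⟩ := hH.scalar hz hsc P1
  have hωω' : T.q T.ω T.ω' = T.h := rfl
  -- the scalar is one
  have hω : T.ω ≠ 0 := by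
    intro h
    apply T.h_ne
    rw [K3Type.h, h, map_zero, LinearMap.zero_apply]
  obtain ⟨i, hi⟩ := Function.ne_iff.1 hω
  have hPx : ∀ x : Fin r → ℂ, P *ᵥ x = P i i • x := by
    intro x
    funext k
    rw [Matrix.mulVec, dotProduct, Finset.sum_eq_single k]
    · rw [Pi.smul_apply, smul_eq_mul, s2 k i]
    · intro j _ hj
      rw [s1 k j hj.symm, zero_mul]
    · intro h; exact absurd (Finset.mem_univ _) h
  have hone : P i i = 1 := by
    have h3 := congrFun (P2 T.ω ω_mem_M) i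
    rw [hPx, Pi.smul_apply, smul_eq_mul] at h3
    exact mul_right_cancel₀ hi (by rw [h3, one_mul])
  have htop : ∀ x, x ∈ Msp T H := by
    intro x
    have := P3 x
    rwa [hPx, hone, one_smul] at this
  refine ⟨hz, fun x y => ?_⟩
  obtain ⟨a, b, n, hn, rfl⟩ := mem_M_iff.1 (htop x)
  obtain ⟨a', b', n', hn', rfl⟩ := mem_M_iff.1 (htop y)
  simp only [T.wd_add_left, T.wd_add_right, T.wd_smul_left, T.wd_smul_right, T.wd_self,
    smul_zero, zero_add, add_zero]
  have m1 : T.wd T.ω T.ω' ∈ H := by rw [T.wd_swap]; exact H.neg_mem h0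
  have m2 : T.wd T.ω n' ∈ H := (h1 hn').2.2
  have m3 : T.wd T.ω' n' ∈ H := hn'.2.2
  have m4 : T.wd n T.ω ∈ H := by rw [T.wd_swap]; exact H.neg_mem (h1 hn).2.2
  have m5 : T.wd n T.ω' ∈ H := by rw [T.wd_swap]; exact H.neg_mem hn.2.2
  have m6 : T.wd n n' ∈ H := hH.wd_NN_mem h0 (h1 hn) hn'
  have hs : ∀ (c : ℂ) {Y}, Y ∈ H → c • Y ∈ H := fun c {Y} hY => H.smul_mem c hY
  first
    | exact H.add_mem (H.add_mem (H.add_mem (hs _ (hs _ h0)) (H.add_mem (hs _ (hs _ m1)) (hs _ m5))) (hs _ m4)) m6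
    | (repeat' first
        | exact m1 | exact m2 | exact m3 | exact m4 | exact m5 | exact m6 | exact h0
        | apply H.add_mem | apply H.smul_mem)

end Pool.Agent.Q263.K3
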