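import Mathlib
import Pool.Agent.Q263.K3.Proj

/-!
# Rational matrices commuting with the Hodge operator
-/

set_option linter.unusedSectionVars false

namespace Pool.Agent.Q263.K3

open Function Module Matrix

variable {r : ℕ} {T : K3Type r}

theorem derivation_rat (δ : Derivation ℚ ℂ ℂ) (c : ℚ) : δ (c : ℂ) = 0 := by
  have := δ.map_algebraMap c
  simpa using this

theorem derivation_rat_mul (δ : Derivation ℚ ℂ ℂ) (c : ℚ) (x : ℂ) : δ (c * x) = c * δ x := by
  rw [δ.leibniz, derivation_rat, smul_zero, add_zero, smul_eq_mul]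

/-- Derivations kill algebraic numbers. -/
theorem derivation_algebraic (δ : Derivation ℚ ℂ ℂ) {x : ℂ} (hx : IsIntegral ℚ x) : δ x = 0 := by
  have h1 : Polynomial.aeval x (minpoly ℚ x) = 0 := minpoly.aeval ℚ x
  have h2 : δ (Polynomial.aeval x (minpoly ℚ x)) =
      Polynomial.aeval x (Polynomial.derivative (minpoly ℚ x)) * δ x := by
    generalize minpoly ℚ x = p
    induction p using Polynomial.induction_on' with
    | add p q hp hq => rw [map_add, map_add, hp, hq, Polynomial.derivative_add, map_add]; ring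
    | monomial n a =>
      rw [Polynomial.aeval_monomial, δ.leibniz, δ.leibniz_pow, Polynomial.derivative_monomial,
        Polynomial.aeval_monomial]
      have : δ (algebraMap ℚ ℂ a) = 0 := δ.map_algebraMap a
      rw [this]
      simp only [smul_zero, add_zero, smul_eq_mul, nsmul_eq_mul, map_mul, map_natCast]
      ring
  rw [h1, map_zero] at h2
  have h3 : Polynomial.aeval x (Polynomial.derivative (minpoly ℚ x)) ≠ 0 := by
    have := (minpoly.irreducible hx).separable
    exact this.aeval_derivative_ne_zero h1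
  exact (mul_eq_zero.1 h2.symm).resolve_left h3

/-- The derivative of the Hodge operator. -/
theorem q_deriv (T : K3Type r) (δ : Derivation ℚ ℂ ℂ) (x y : Fin r → ℂ) :
    δ (T.q x y) = T.q (fun i => δ (x i)) y + T.q x (fun i => δ (y i)) := by
  simp only [T.q_apply, map_sum]
  rw [← Finset.sum_add_distrib]
  refine Finset.sum_congr rfl fun i _ => ?_
  rw [δ.leibniz, derivation_rat_mul]
  simp only [smul_eq_mul]
  ring

theorem q_ω_deriv (T : K3Type r) (δ : Derivation ℚ ℂ ℂ) : T.q T.ω (fun i => δ (T.ω i)) = 0 := by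
  have h := q_deriv T δ T.ω T.ω
  rw [T.q_ωω, map_zero, T.q_comm (fun i => δ (T.ω i)) T.ω] at h
  have h2 : (2 : ℂ) * T.q T.ω (fun i => δ (T.ω i)) = 0 := by linear_combination -h
  exact (mul_eq_zero.1 h2).resolve_left two_ne_zero

/-- The value of the derivative of the Hodge operator on the period vector. -/
theorem zder_ω (T : K3Type r) (δ : Derivation ℚ ℂ ℂ) : ∃ c : ℂ,
    (T.z.map δ) *ᵥ T.ω = (2 : ℂ) • (fun i => δ (T.ω i)) + c • T.ω := by
  have h1 : ∀ i, δ ((T.z *ᵥ T.ω) i) = ((T.z.map δ) *ᵥ T.ω) i +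
      (T.z *ᵥ (fun i => δ (T.ω i))) i := by
    intro i
    simp only [Matrix.mulVec, dotProduct, map_sum, Matrix.map_apply]
    rw [← Finset.sum_add_distrib]
    refine Finset.sum_congr rfl fun j _ => ?_
    rw [δ.leibniz]
    simp only [smul_eq_mul]
    ring
  refine ⟨-((2 / T.h) * T.q T.ω' (fun i => δ (T.ω i))), ?_⟩
  funext i
  have h2 := h1 i
  rw [T.z_ω, T.z_mulVec, q_ω_deriv, zero_smul, sub_zero] at h2
  simp only [Pi.smul_apply, smul_eq_mul, Pi.add_apply] at h2 ⊢
  have h3 : δ (2 * T.ω i) = 2 * δ (T.ω i) := by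
    have := derivation_rat_mul δ 2 (T.ω i)
    simpa using this
  rw [h3] at h2
  linear_combination -h2

/-- A rational matrix with the eigenvector `ω` has a rational eigenvalue if there are many
independent periods. -/
theorem rational_eigenvalue {s : Finset (Fin r)} (hr : r < 2 * s.card + 2) {i0 : Fin r}
    (h0 : T.ω i0 = 1) (δ : s → Derivation ℚ ℂ ℂ)
    (hδ : ∀ a b : s, δ a (T.ω b) = if a = b then 1 else 0)
    (a : Matrix (Fin r) (Fin r) ℚ) (l : ℂ)
    (hl : (a.map (fun x => (x : ℂ))) *ᵥ T.ω = l • T.ω) : ∃ c : ℚ, l = c := by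
  classical
  let L : Submodule ℚ ℂ := Submodule.span ℚ (Set.range T.ω)
  have hmem : ∀ j, T.ω j ∈ L := fun j => Submodule.subset_span ⟨j, rfl⟩
  have hlm : ∀ x ∈ L, l * x ∈ L := by
    intro x hx
    induction hx using Submodule.span_induction with
    | mem x hx =>
      obtain ⟨j, rfl⟩ := hx
      have := congrFun hl j
      rw [Pi.smul_apply, smul_eq_mul] at this
      rw [← this, Matrix.mulVec, dotProduct]
      refine Submodule.sum_mem _ fun k _ => ?_
      rw [Matrix.map_apply, ← Rat.smul_def]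
      exact L.smul_mem _ (hmem k)
    | zero => rw [mul_zero]; exact L.zero_mem
    | add x y _ _ hx hy => rw [mul_add]; exact L.add_mem hx hy
    | smul c x _ hx => rw [mul_smul_comm]; exact L.smul_mem _ hx
  have h1L : (1 : ℂ) ∈ L := h0 ▸ hmem i0
  have hfg : L.FG := by
    rw [Submodule.fg_def]
    exact ⟨Set.range T.ω, Set.finite_range _, rfl⟩
  haveI : FiniteDimensional ℚ L := FiniteDimensional.span_of_finite ℚ (Set.finite_range _)
  have hint : IsIntegral ℚ l := by
    refine isIntegral_of_smul_mem_submodule (M := ℂ) L ?_ hfg l fun x hx => hlm x hx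
    intro h
    rw [h, Submodule.mem_bot] at h1L
    exact one_ne_zero h1L
  by_contra hirr
  push Not at hirr
  -- coefficients
  have hcoef : ∀ b c : ℚ, (b : ℂ) + c * l = 0 → b = 0 ∧ c = 0 := by
    intro b c h
    have hc : c = 0 := by
      by_contra hc
      apply hirr (-b / c)
      have hc' : (c : ℂ) ≠ 0 := by exact_mod_cast hc
      push_cast
      rw [eq_div_iff hc']
      linear_combination h
    subst hc
    refine ⟨?_, rfl⟩
    simpa using h
  let φ : ((s → ℚ × ℚ) × (ℚ × ℚ)) →ₗ[ℚ] L :=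
    { toFun := fun p => ⟨∑ i : s, ((((p.1 i).1 : ℚ) : ℂ) * T.ω i + (((p.1 i).2 : ℚ) : ℂ) * (l * T.ω i)) +
          (((p.2.1 : ℚ) : ℂ) * 1 + ((p.2.2 : ℚ) : ℂ) * (l * 1)), by
        refine L.add_mem (Submodule.sum_mem _ fun i _ => ?_) ?_
        · rw [← Rat.smul_def, ← Rat.smul_def]
          exact L.add_mem (L.smul_mem _ (hmem _)) (L.smul_mem _ (hlm _ (hmem _)))
        · rw [← Rat.smul_def, ← Rat.smul_def]
          exact L.add_mem (L.smul_mem _ h1L) (L.smul_mem _ (hlm _ h1L))⟩
      map_add' := by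
        intro p p'
        apply Subtype.ext
        simp only [Prod.fst_add, Prod.snd_add, Pi.add_apply, Rat.cast_add, Submodule.coe_add]
        have : ∀ (f g : s → ℂ) (x y : ℂ), (∑ i, f i + x) + (∑ i, g i + y) =
            ∑ i, (f i + g i) + (x + y) := by
          intro f g x y
          rw [Finset.sum_add_distrib]; ring
        rw [this]
        congr 1
        · exact Finset.sum_congr rfl fun i _ => by ring
        · ring
      map_smul' := by
        intro c p
        apply Subtype.ext
        simp only [Prod.smul_fst, Prod.smul_snd, Pi.smul_apply, smul_eq_mul, Rat.cast_mul,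
          RingHom.id_apply, Submodule.coe_smul, Rat.smul_def]
        rw [mul_add, Finset.mul_sum]
        congr 1
        · exact Finset.sum_congr rfl fun i _ => by ring
        · ring }
  have hδl : ∀ i, δ i l = 0 := fun i => derivation_algebraic _ hint
  have hinj : Injective φ := by
    rw [← LinearMap.ker_eq_bot, LinearMap.ker_eq_bot']
    intro p hp
    have hp0 : ∑ i : s, ((((p.1 i).1 : ℚ) : ℂ) * T.ω i + (((p.1 i).2 : ℚ) : ℂ) * (l * T.ω i)) +
          (((p.2.1 : ℚ) : ℂ) * 1 + ((p.2.2 : ℚ) : ℂ) * (l * 1)) = 0 := congrArg Subtype.val hp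
    have hp1 : ∀ j : s, (p.1 j).1 = 0 ∧ (p.1 j).2 = 0 := by
      intro j
      apply hcoef
      have h2 := congrArg (δ j) hp0
      rw [map_add, map_sum, map_zero] at h2
      have e1 : δ j (((p.2.1 : ℚ) : ℂ) * 1 + ((p.2.2 : ℚ) : ℂ) * (l * 1)) = 0 := by
        rw [map_add, derivation_rat_mul, derivation_rat_mul, mul_one, hδl j, Derivation.map_one_eq_zero]
        ring
      have e2 : ∀ i : s, δ j ((((p.1 i).1 : ℚ) : ℂ) * T.ω i + (((p.1 i).2 : ℚ) : ℂ) * (l * T.ω i)) =
          if j = i then ((((p.1 i).1 : ℚ) : ℂ) + (((p.1 i).2 : ℚ) : ℂ) * l) else 0 := by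
        intro i
        rw [map_add, derivation_rat_mul, derivation_rat_mul, (δ j).leibniz, hδl j, hδ]
        split_ifs
        · simp
        · simp
      rw [e1, add_zero, Finset.sum_congr rfl fun i _ => e2 i] at h2
      simpa using h2
    have hp2 : p.2.1 = 0 ∧ p.2.2 = 0 := by
      apply hcoef
      have : ∑ i : s, ((((p.1 i).1 : ℚ) : ℂ) * T.ω i + (((p.1 i).2 : ℚ) : ℂ) * (l * T.ω i)) = 0 := by
        apply Finset.sum_eq_zero
        intro i _
        rw [(hp1 i).1, (hp1 i).2]
        simp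
      rw [this] at hp0
      linear_combination hp0
    apply Prod.ext
    · funext j
      exact Prod.ext (hp1 j).1 (hp1 j).2
    · exact Prod.ext hp2.1 hp2.2
  have hle := LinearMap.finrank_le_finrank_of_injective hinj
  have hL : finrank ℚ L ≤ r := by
    have := finrank_range_le_card (R := ℚ) T.ω
    simpa [Set.finrank] using this
  have hdom : finrank ℚ ((s → ℚ × ℚ) × (ℚ × ℚ)) = 2 * s.card + 2 := by
    rw [Module.finrank_prod, Module.finrank_pi_fintype, Module.finrank_prod, Module.finrank_self]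
    simp
    ring
  rw [hdom] at hle
  omega

/-- Rational matrices which commute with the Hodge operator are scalar. -/
theorem commutant_scalar {s : Finset (Fin r)} (hr : r < 2 * s.card + 2) {i0 : Fin r}
    (h0 : T.ω i0 = 1) (δ : s → Derivation ℚ ℂ ℂ)
    (hδ : ∀ a b : s, δ a (T.ω b) = if a = b then 1 else 0)
    (a : Matrix (Fin r) (Fin r) ℚ)
    (ha : a.map (fun x => (x : ℂ)) * T.z = T.z * a.map (fun x => (x : ℂ))) :
    ∃ c : ℚ, a = c • 1 := by
  have h1 : T.z *ᵥ ((a.map (fun x => (x : ℂ))) *ᵥ T.ω) = (2 : ℂ) •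
      ((a.map (fun x => (x : ℂ))) *ᵥ T.ω) := by
    rw [Matrix.mulVec_mulVec, ← ha, ← Matrix.mulVec_mulVec, T.z_ω, Matrix.mulVec_smul]
  obtain ⟨l, hl⟩ := T.eigen_two h1
  obtain ⟨c, rfl⟩ := rational_eigenvalue hr h0 δ hδ a l hl
  refine ⟨c, ?_⟩
  ext i j
  have h2 := T.indep
  rw [Fintype.linearIndependent_iff] at h2
  have h3 := h2 (fun j => (a - c • 1) i j) (by
    have := congrFun hl i
    rw [Matrix.mulVec, dotProduct, Pi.smul_apply, smul_eq_mul] at this
    have e : ∑ j, (a - c • (1 : Matrix (Fin r) (Fin r) ℚ)) i j • T.ω j =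
        ∑ j, (a.map (fun x => (x : ℂ))) i j * T.ω j - (c : ℂ) * T.ω i := by
      simp only [Rat.smul_def, Matrix.sub_apply, Matrix.smul_apply, Rat.cast_sub, sub_mul,
        Finset.sum_sub_distrib, Matrix.map_apply, smul_eq_mul, Rat.cast_mul]
      congr 1
      rw [Finset.sum_eq_single i]
      · rw [Matrix.one_apply_eq]; simp
      · intro j _ hj
        rw [Matrix.one_apply_ne hj.symm]; simp
      · intro h; exact absurd (Finset.mem_univ _) h
    rw [e, this, sub_self]) j
  rw [Matrix.sub_apply, sub_eq_zero] at h3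
  exact h3

end Pool.Agent.Q263.K3
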