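import Mathlib
import Pool.Agent.Q263.K3.Count

/-!
# The Lie algebra of the matrices which kill the Hodge classes
-/

set_option linter.unusedSectionVars false

namespace Pool.Agent.Q263.K3

open Function Module Matrix

variable {r : ℕ}

section slots

variable {R : Type*} [CommRing R] {M : Type*} [AddCommGroup M] [Module R M] {a : ℕ}

/-- A matrix acting on one slot. -/
def sl (s : Fin a) (X : Matrix (Fin r) (Fin r) R) (t : Tens r a M) : Tens r a M :=
  fun I => ∑ j : Fin r, X (I s) j • t (update I s j)

theorem act_eq (X : Matrix (Fin r) (Fin r) R) (t : Tens r a M) : act X t = ∑ s, sl s X t := by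
  funext I
  rw [Finset.sum_apply]
  rfl

theorem sl_sum {ι : Type*} (T : Finset ι) (s : Fin a) (X : Matrix (Fin r) (Fin r) R)
    (f : ι → Tens r a M) : sl s X (∑ i ∈ T, f i) = ∑ i ∈ T, sl s X (f i) := by
  funext I
  simp only [sl, Finset.sum_apply, Finset.smul_sum]
  rw [Finset.sum_comm]

theorem sl_mul (s : Fin a) (X Y : Matrix (Fin r) (Fin r) R) (t : Tens r a M) :
    sl s X (sl s Y t) = sl s (X * Y) t := by
  funext I
  simp only [sl, update_self, update_idem, Finset.smul_sum, smul_smul, Matrix.mul_apply,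
    Finset.sum_smul]
  rw [Finset.sum_comm]

theorem sl_comm {s s' : Fin a} (h : s ≠ s') (X Y : Matrix (Fin r) (Fin r) R) (t : Tens r a M) :
    sl s X (sl s' Y t) = sl s' Y (sl s X t) := by
  funext I
  simp only [sl, Finset.smul_sum, smul_smul]
  rw [Finset.sum_comm]
  refine Finset.sum_congr rfl fun k _ => Finset.sum_congr rfl fun j _ => ?_
  rw [update_of_ne h.symm, update_of_ne h, update_comm h, mul_comm]

theorem sl_sub (s : Fin a) (X Y : Matrix (Fin r) (Fin r) R) (t : Tens r a M) :
    sl s (X - Y) t = sl s X t - sl s Y t := by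
  funext I
  simp only [sl, Matrix.sub_apply, sub_smul, Finset.sum_sub_distrib, Pi.sub_apply]

/-- The action is an action of the Lie algebra. -/
theorem act_bracket (X Y : Matrix (Fin r) (Fin r) R) (t : Tens r a M) :
    act (X * Y - Y * X) t = act X (act Y t) - act Y (act X t) := by
  classical
  have e1 : act X (act Y t) = ∑ s, ∑ s', sl s X (sl s' Y t) := by
    rw [act_eq X]
    refine Finset.sum_congr rfl fun s _ => ?_
    rw [act_eq Y, sl_sum]
  have e2 : act Y (act X t) = ∑ s, ∑ s', sl s' Y (sl s X t) := by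
    rw [act_eq Y, Finset.sum_comm]
    refine Finset.sum_congr rfl fun s _ => ?_
    rw [act_eq X, sl_sum]
  rw [e1, e2, ← Finset.sum_sub_distrib, act_eq]
  refine Finset.sum_congr rfl fun s _ => ?_
  rw [← Finset.sum_sub_distrib, Finset.sum_eq_single s]
  · rw [sl_sub, sl_mul, sl_mul]
  · intro s' _ hs'
    rw [sl_comm hs'.symm, sub_self]
  · intro h; exact absurd (Finset.mem_univ _) h

theorem act_zero (X : Matrix (Fin r) (Fin r) R) : act X (0 : Tens r a M) = 0 := by
  funext I
  simp [act]

theorem act_neg (X : Matrix (Fin r) (Fin r) R) (t : Tens r a M) : act X (-t) = -act X t := by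
  funext I
  simp only [act, Pi.neg_apply, smul_neg, Finset.sum_neg_distrib]

end slots

variable {v : ℕ} {a : ℕ}

/-- A rational tensor as a complex tensor. -/
def castT (t : Tens r a (Fin v → ℚ)) : Tens r a (Fin v → ℂ) := fun I b => (t I b : ℂ)

/-- A matrix acting on the values. -/
def actY (A : Matrix (Fin v) (Fin v) ℂ) (t : Tens r a (Fin v → ℂ)) : Tens r a (Fin v → ℂ) :=
  fun I => A *ᵥ t I

theorem act_actY (X : Matrix (Fin r) (Fin r) ℂ) (A : Matrix (Fin v) (Fin v) ℂ)
    (t : Tens r a (Fin v → ℂ)) : act X (actY A t) = actY A (act X t) := by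
  funext I
  simp only [act, actY]
  rw [Matrix.mulVec_sum]
  refine Finset.sum_congr rfl fun s _ => ?_
  rw [Matrix.mulVec_sum]
  refine Finset.sum_congr rfl fun j _ => ?_
  rw [Matrix.mulVec_smul]

theorem actY_zero (A : Matrix (Fin v) (Fin v) ℂ) : actY A (0 : Tens r a (Fin v → ℂ)) = 0 := by
  funext I
  simp [actY]

theorem act_castT_apply (X : Matrix (Fin r) (Fin r) ℂ) (t : Tens r a (Fin v → ℚ))
    (I : Fin a → Fin r) (b : Fin v) :
    act X (castT t) I b = ∑ s : Fin a, ∑ j : Fin r, X (I s) j * (t (update I s j) b : ℂ) := by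
  simp only [act, castT, Finset.sum_apply, Pi.smul_apply, smul_eq_mul]

/-- The tensor `t`, an element of `T ^ (⊗ a) ⊗ H(Y)`, is a Hodge class: it is killed by the Hodge
operator. -/
def IsHodge (T : K3Type r) (A : Matrix (Fin v) (Fin v) ℂ) (t : Tens r a (Fin v → ℚ)) : Prop :=
  act T.z (castT t) + actY A (castT t) = 0

/-- The skew matrices which kill all Hodge classes. -/
def HL (T : K3Type r) (A : Matrix (Fin v) (Fin v) ℂ) :
    Submodule ℂ (Matrix (Fin r) (Fin r) ℂ) where
  carrier := {X | T.Skew X ∧ ∀ (a : ℕ) (t : Tens r a (Fin v → ℚ)), IsHodge T A t →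
    act X (castT t) = 0}
  add_mem' := by
    rintro X Y ⟨x1, x2⟩ ⟨y1, y2⟩
    refine ⟨fun i j => ?_, fun a t ht => ?_⟩
    · simp only [Matrix.add_apply]
      linear_combination x1 i j + y1 i j
    · have h1 := x2 a t ht
      have h2 := y2 a t ht
      funext I b
      have h3 := congrFun (congrFun h1 I) b
      have h4 := congrFun (congrFun h2 I) b
      rw [act_castT_apply] at h3 h4 ⊢
      simp only [Matrix.add_apply, add_mul, Finset.sum_add_distrib]
      rw [h3, h4]
      simp
  zero_mem' := by
    refine ⟨fun i j => by simp, fun a t _ => ?_⟩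
    funext I b
    rw [act_castT_apply]
    simp
  smul_mem' := by
    rintro c X ⟨x1, x2⟩
    refine ⟨fun i j => ?_, fun a t ht => ?_⟩
    · simp only [Matrix.smul_apply, smul_eq_mul]
      linear_combination c * x1 i j
    · have h1 := x2 a t ht
      funext I b
      have h3 := congrFun (congrFun h1 I) b
      rw [act_castT_apply] at h3 ⊢
      simp only [Matrix.smul_apply, smul_eq_mul, mul_assoc, ← Finset.mul_sum]
      rw [h3]
      simp

theorem K3Type.skew_br {T : K3Type r} {A B : Matrix (Fin r) (Fin r) ℂ} (hA : T.Skew A)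
    (hB : T.Skew B) : T.Skew (A * B - B * A) := by
  intro i j
  simp only [Matrix.sub_apply, Matrix.mul_apply]
  rw [← Finset.sum_sub_distrib, ← Finset.sum_sub_distrib, Finset.mul_sum, Finset.mul_sum,
    ← Finset.sum_add_distrib]
  apply Finset.sum_eq_zero
  intro k _
  linear_combination (B k j) * hA i k - (A k i) * hB k j - (A k j) * hB i k + (B k i) * hA k j

theorem HL_lieAlg (T : K3Type r) (A : Matrix (Fin v) (Fin v) ℂ) : LieAlg T (HL T A) where
  skew := fun X hX => hX.1
  zb := by
    rintro X ⟨x1, x2⟩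
    refine ⟨K3Type.skew_br T.z_skew x1, fun a t ht => ?_⟩
    have h1 : act T.z (castT t) = -actY A (castT t) := eq_neg_of_add_eq_zero_left ht
    rw [act_bracket, x2 a t ht, act_zero, h1, act_neg, act_actY, x2 a t ht, actY_zero]
    simp
  br := by
    rintro X ⟨x1, x2⟩ Y ⟨y1, y2⟩
    refine ⟨K3Type.skew_br x1 y1, fun a t ht => ?_⟩
    rw [act_bracket, x2 a t ht, y2 a t ht, act_zero, act_zero, sub_zero]
  conj := by
    rintro X ⟨x1, x2⟩
    refine ⟨fun i j => ?_, fun a t ht => ?_⟩
    · have := congrArg (starRingEnd ℂ) (x1 i j)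
      simpa using this
    · have h1 := x2 a t ht
      funext I b
      have h3 := congrArg (starRingEnd ℂ) (congrFun (congrFun h1 I) b)
      rw [act_castT_apply] at h3 ⊢
      simpa using h3
  ra := by
    rintro X ⟨x1, x2⟩ τ
    refine ⟨fun i j => ?_, fun a t ht => ?_⟩
    · have h1 : (T.d i) • X i j + (T.d j) • X j i = 0 := by
        rw [Rat.smul_def, Rat.smul_def]; exact x1 i j
      have h2 := congrArg τ h1
      rw [map_add, map_smul, map_smul, map_zero, smul_eq_mul, smul_eq_mul] at h2
      simp only [Matrix.map_apply]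
      exact_mod_cast h2
    · have h1 := x2 a t ht
      funext I b
      have h3 := congrFun (congrFun h1 I) b
      rw [act_castT_apply] at h3 ⊢
      have h4 : ∑ s : Fin a, ∑ j : Fin r, (t (update I s j) b) • X (I s) j = 0 := by
        rw [Pi.zero_apply, Pi.zero_apply] at h3
        rw [← h3]
        refine Finset.sum_congr rfl fun s _ => Finset.sum_congr rfl fun j _ => ?_
        rw [Rat.smul_def, mul_comm]
      have h5 := congrArg τ h4
      simp only [map_sum, map_smul, map_zero, smul_eq_mul] at h5
      simp only [Matrix.map_apply, Pi.zero_apply]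
      have h6 : (((∑ s : Fin a, ∑ j : Fin r, t (update I s j) b * τ (X (I s) j) : ℚ)) : ℂ) = 0 := by
        rw [h5]; simp
      rw [← h6]
      push_cast
      refine Finset.sum_congr rfl fun s _ => Finset.sum_congr rfl fun j _ => ?_
      rw [mul_comm]

/-- Derivatives of the Hodge operator kill the Hodge classes. -/
theorem zder_mem (T : K3Type r) (A : Matrix (Fin v) (Fin v) ℂ) (δ : Derivation ℚ ℂ ℂ)
    (hA : ∀ b c, δ (A b c) = 0) : T.z.map δ ∈ HL T A := by
  refine ⟨fun i j => ?_, fun a t ht => ?_⟩
  · have := congrArg δ (T.z_skew i j)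
    rw [map_add, derivation_rat_mul, derivation_rat_mul, map_zero] at this
    simpa using this
  · funext I b
    have h3 := congrFun (congrFun ht I) b
    rw [Pi.add_apply, Pi.add_apply, act_castT_apply] at h3
    simp only [actY, Matrix.mulVec, dotProduct, castT, Pi.zero_apply] at h3
    have h4 := congrArg δ h3
    rw [map_add, map_sum, map_sum, map_zero] at h4
    have e2 : ∑ c, δ (A b c * (t I c : ℂ)) = 0 := by
      apply Finset.sum_eq_zero
      intro c _
      rw [mul_comm, derivation_rat_mul, hA, mul_zero]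
    rw [e2, add_zero] at h4
    rw [act_castT_apply, Pi.zero_apply, Pi.zero_apply, ← h4]
    refine Finset.sum_congr rfl fun s _ => ?_
    rw [map_sum]
    refine Finset.sum_congr rfl fun j _ => ?_
    rw [Matrix.map_apply, mul_comm, mul_comm (T.z _ _), derivation_rat_mul]

/-- The Hodge classes of `Y`. -/
def hodgeY (A : Matrix (Fin v) (Fin v) ℂ) : Submodule ℚ (Fin v → ℚ) where
  carrier := {y | A *ᵥ (fun b => (y b : ℂ)) = 0}
  add_mem' := by
    intro x y hx hy
    have : (fun b => (((x + y) b : ℚ) : ℂ)) = (fun b => (x b : ℂ)) + (fun b => (y b : ℂ)) := by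
      funext b; simp
    simp only [Set.mem_setOf_eq] at hx hy ⊢
    rw [this, Matrix.mulVec_add, hx, hy, add_zero]
  zero_mem' := by
    have : (fun b => (((0 : Fin v → ℚ) b : ℚ) : ℂ)) = 0 := by funext b; simp
    simp only [Set.mem_setOf_eq]
    rw [this, Matrix.mulVec_zero]
  smul_mem' := by
    intro c x hx
    have : (fun b => (((c • x) b : ℚ) : ℂ)) = (c : ℂ) • (fun b => (x b : ℂ)) := by
      funext b; simp
    simp only [Set.mem_setOf_eq] at hx ⊢
    rw [this, Matrix.mulVec_smul, hx, smul_zero]

theorem K3Type.d_ne (T : K3Type r) (p : Fin r) : T.d p ≠ 0 := by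
  classical
  intro h
  have := T.neg (Pi.single p 1) (by
    intro h0
    have := congrFun h0 p
    simp at this) (by
    apply Finset.sum_eq_zero
    intro i _
    rcases eq_or_ne i p with rfl | hi
    · rw [h]; simp
    · rw [Pi.single_eq_of_ne hi]; simp)
  have h2 : ∑ i, (T.d i : ℝ) * (Pi.single p (1 : ℝ) : Fin r → ℝ) i ^ 2 = 0 := by
    apply Finset.sum_eq_zero
    intro i _
    rcases eq_or_ne i p with rfl | hi
    · rw [h]; simp
    · rw [Pi.single_eq_of_ne hi]; simp
  rw [h2] at this
  exact lt_irrefl _ this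

end Pool.Agent.Q263.K3
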