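import Mathlib
import Pool.Agent.Q263.K3.Tns

/-!
# Products of pairings and Hodge classes are Hodge classes
-/

set_option linter.unusedSectionVars false

namespace Pool.Agent.Q263.K3

open Function Module Matrix

variable {r : ℕ} {v : ℕ} {a : ℕ}

/-- The action of a skew matrix on a product with a pairing. -/
theorem act_pair (T : K3Type r) {X : Matrix (Fin r) (Fin r) ℂ} (hX : T.Skew X) (s : Fin (a + 1))
    (g : Tens r a (Fin v → ℚ)) (I : Fin (a + 2) → Fin r) :
    act X (castT (fun I => if I 0 = I s.succ then
        (T.d (I 0))⁻¹ • g (fun l => I (s.succAbove l).succ) else 0 : Tens r (a + 2) (Fin v → ℚ))) I =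
      if I 0 = I s.succ then (((T.d (I 0))⁻¹ : ℚ) : ℂ) •
        act X (castT g) (fun l => I (s.succAbove l).succ) else 0 := by
  have hd : ∀ i, ((T.d i : ℚ) : ℂ) ≠ 0 := fun i => by exact_mod_cast T.d_ne i
  funext b
  rw [act_castT_apply]
  rw [Fin.sum_univ_succ, Fin.sum_univ_succAbove _ s]
  have h0 : ∑ j : Fin r, X (I 0) j * (((if update I 0 j 0 = update I 0 j s.succ then
      (T.d (update I 0 j 0))⁻¹ • g (fun l => update I 0 j (s.succAbove l).succ) else 0 :
      Fin v → ℚ) b : ℚ) : ℂ) = X (I 0) (I s.succ) * ((T.d (I s.succ) : ℂ)⁻¹ *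
        (g (fun l => I (s.succAbove l).succ) b : ℂ)) := by
    rw [Finset.sum_eq_single (I s.succ)]
    · rw [update_self, update_of_ne (Fin.succ_ne_zero s), if_pos rfl]
      congr 1
      rw [Pi.smul_apply, smul_eq_mul]
      push_cast
      congr 3
    · intro j _ hj
      rw [update_self, update_of_ne (Fin.succ_ne_zero s), if_neg hj]
      simp
    · intro h; exact absurd (Finset.mem_univ _) h
  have h1 : ∑ j : Fin r, X (I s.succ) j * (((if update I s.succ j 0 = update I s.succ j s.succ then
      (T.d (update I s.succ j 0))⁻¹ • g (fun l => update I s.succ j (s.succAbove l).succ) else 0 :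
      Fin v → ℚ) b : ℚ) : ℂ) = X (I s.succ) (I 0) * ((T.d (I 0) : ℂ)⁻¹ *
        (g (fun l => I (s.succAbove l).succ) b : ℂ)) := by
    rw [Finset.sum_eq_single (I 0)]
    · rw [update_self, update_of_ne (Fin.succ_ne_zero s).symm, if_pos rfl]
      congr 1
      rw [Pi.smul_apply, smul_eq_mul]
      push_cast
      congr 3
      funext l
      rw [update_of_ne]
      intro h
      exact Fin.succAbove_ne s l (Fin.succ_injective _ h)
    · intro j _ hj
      rw [update_self, update_of_ne (Fin.succ_ne_zero s).symm, if_neg (Ne.symm hj)]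
      simp
    · intro h; exact absurd (Finset.mem_univ _) h
  have h2 : ∀ l : Fin a, ∑ j : Fin r, X (I (s.succAbove l).succ) j *
      (((if update I (s.succAbove l).succ j 0 = update I (s.succAbove l).succ j s.succ then
      (T.d (update I (s.succAbove l).succ j 0))⁻¹ •
        g (fun l' => update I (s.succAbove l).succ j (s.succAbove l').succ) else 0 :
      Fin v → ℚ) b : ℚ) : ℂ) = if I 0 = I s.succ then ((T.d (I 0) : ℂ)⁻¹) *
        ∑ j : Fin r, X (I (s.succAbove l).succ) j *
          (g (update (fun l' => I (s.succAbove l').succ) l j) b : ℂ) else 0 := by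
    intro l
    have e1 : ∀ j, update I (s.succAbove l).succ j 0 = I 0 := fun j =>
      update_of_ne (Fin.succ_ne_zero _).symm _ _
    have e2 : ∀ j, update I (s.succAbove l).succ j s.succ = I s.succ := fun j =>
      update_of_ne (fun h => Fin.succAbove_ne s l (Fin.succ_injective _ h).symm) _ _
    have e3 : ∀ j, (fun l' => update I (s.succAbove l).succ j (s.succAbove l').succ) =
        update (fun l' => I (s.succAbove l').succ) l j := by
      intro j
      funext l'
      rcases eq_or_ne l' l with rfl | h
      · rw [update_self, update_self]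
      · rw [update_of_ne h, update_of_ne]
        intro h'
        exact h (Fin.succAbove_right_injective (Fin.succ_injective _ h'))
    simp only [e1, e2, e3]
    split_ifs with h
    · rw [Finset.mul_sum]
      refine Finset.sum_congr rfl fun j _ => ?_
      rw [Pi.smul_apply, smul_eq_mul]
      push_cast
      ring
    · simp
  rw [h0, h1, Finset.sum_congr rfl fun l _ => h2 l]
  have h3 : X (I 0) (I s.succ) * ((T.d (I s.succ) : ℂ)⁻¹ *
        (g (fun l => I (s.succAbove l).succ) b : ℂ)) + X (I s.succ) (I 0) * ((T.d (I 0) : ℂ)⁻¹ *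
        (g (fun l => I (s.succAbove l).succ) b : ℂ)) = 0 := by
    have := hX (I 0) (I s.succ)
    have d1 := hd (I 0)
    have d2 := hd (I s.succ)
    field_simp
    linear_combination ((g (fun l => I (s.succAbove l).succ) b : ℚ) : ℂ) * this
  rw [← add_assoc, h3, zero_add]
  split_ifs with h
  · rw [Pi.smul_apply, act_castT_apply, smul_eq_mul, ← Finset.mul_sum]
    push_cast
    rfl
  · simp

theorem isHodge_of_gen (T : K3Type r) (A : Matrix (Fin v) (Fin v) ℂ) {t : Tens r a (Fin v → ℚ)}
    (h : Gen T.d (hodgeY A) a t) : IsHodge T A t := by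
  induction h with
  | base m hm =>
    funext I b
    have h1 : A *ᵥ (fun b => (m b : ℂ)) = 0 := hm
    have h2 := congrFun h1 b
    rw [Pi.add_apply, Pi.add_apply, act_castT_apply, Finset.univ_eq_empty, Finset.sum_empty,
      zero_add]
    exact h2
  | @pair a s g hg ih =>
    unfold IsHodge at ih ⊢
    funext I
    rw [Pi.add_apply, act_pair T T.z_skew]
    have ih' := congrFun ih (fun l => I (s.succAbove l).succ)
    rw [Pi.add_apply, Pi.zero_apply] at ih'
    rw [Pi.zero_apply]
    simp only [actY] at ih' ⊢
    have e : castT (fun I : Fin (a + 2) → Fin r => if I 0 = I s.succ then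
        (T.d (I 0))⁻¹ • g (fun l => I (s.succAbove l).succ) else 0) I =
        if I 0 = I s.succ then (((T.d (I 0))⁻¹ : ℚ) : ℂ) •
          castT g (fun l => I (s.succAbove l).succ) else 0 := by
      funext b
      simp only [castT]
      split_ifs
      · simp only [Pi.smul_apply, smul_eq_mul, Rat.cast_mul]
        rfl
      · simp
    rw [e]
    split_ifs
    · rw [Matrix.mulVec_smul, ← smul_add, ih', smul_zero]
    · simp
  | add t u _ _ iht ihu =>
    unfold IsHodge at iht ihu ⊢
    have e : castT (t + u) = castT t + castT u := by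
      funext I b; simp [castT]
    have e1 : ∀ X : Matrix (Fin r) (Fin r) ℂ, act X (castT t + castT u) =
        act X (castT t) + act X (castT u) := by
      intro X
      funext I
      simp only [act, Pi.add_apply, smul_add, Finset.sum_add_distrib]
    have e2 : actY A (castT t + castT u) = actY A (castT t) + actY A (castT u) := by
      funext I
      simp only [actY, Pi.add_apply, Matrix.mulVec_add]
    rw [e, e1, e2]
    have : act T.z (castT t) + act T.z (castT u) + (actY A (castT t) + actY A (castT u)) =
      (act T.z (castT t) + actY A (castT t)) + (act T.z (castT u) + actY A (castT u)) := by abel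
    rw [this, iht, ihu, add_zero]
  | @zero a =>
    unfold IsHodge
    have e : castT (0 : Tens r a (Fin v → ℚ)) = 0 := by
      funext I b; simp [castT]
    rw [e, act_zero, actY_zero, add_zero]

end Pool.Agent.Q263.K3
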