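import Mathlib
import Pool.Agent.Q263.K3.Tns
import Pool.Agent.Q263.K3.Conv

/-!
# The case that the Hodge structure has no other endomorphisms than the rational numbers
-/

set_option linter.unusedSectionVars false

namespace Pool.Agent.Q263.K3

open Function Module Matrix

variable {r : ℕ} {T : K3Type r} {H : Submodule ℂ (Matrix (Fin r) (Fin r) ℂ)}

/-- The only endomorphisms of the rational Hodge structure are the rational numbers. -/
def EndQ (T : K3Type r) : Prop :=
  ∀ a : Matrix (Fin r) (Fin r) ℚ,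
    a.map (fun x => (x : ℂ)) * T.z = T.z * a.map (fun x => (x : ℂ)) → ∃ c : ℚ, a = c • 1

/-- The conjugate subspace. -/
def cjS (U : Submodule ℂ (Fin r → ℂ)) : Submodule ℂ (Fin r → ℂ) where
  carrier := {x | cj x ∈ U}
  add_mem' := by
    intro x y hx hy
    simp only [Set.mem_setOf_eq] at hx hy ⊢
    rw [cj_add]; exact U.add_mem hx hy
  zero_mem' := by
    simp only [Set.mem_setOf_eq]
    rw [cj_zero]; exact U.zero_mem
  smul_mem' := by
    intro c x hx
    simp only [Set.mem_setOf_eq] at hx ⊢
    rw [cj_smul]; exact U.smul_mem _ hx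

theorem finrank_le_cjS (U : Submodule ℂ (Fin r → ℂ)) : finrank ℂ U ≤ finrank ℂ (cjS U) := by
  have hb := (Module.finBasis ℂ U).linearIndependent
  have hb2 : LinearIndependent ℂ (fun i => ((Module.finBasis ℂ U) i : Fin r → ℂ)) :=
    hb.map' U.subtype (Submodule.ker_subtype U)
  have h := card_le_finrank (linearIndependent_cj hb2) (cjS U) fun i => by
    change cj (cj _) ∈ U
    rw [cj_cj]; exact ((Module.finBasis ℂ U) i).2
  simpa using h

theorem cjS_cjS (U : Submodule ℂ (Fin r → ℂ)) : cjS (cjS U) = U := by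
  ext x
  change cj (cj x) ∈ U ↔ _
  rw [cj_cj]

theorem finrank_cjS (U : Submodule ℂ (Fin r → ℂ)) : finrank ℂ (cjS U) = finrank ℂ U := by
  apply le_antisymm _ (finrank_le_cjS U)
  have := finrank_le_cjS (cjS U)
  rwa [cjS_cjS] at this

theorem K3Type.nondeg (T : K3Type r) : LinearMap.BilinForm.Nondegenerate
    (T.q : LinearMap.BilinForm ℂ _) := by
  have key : ∀ x : Fin r → ℂ, (∀ y, T.q x y = 0) → x = 0 := by
    intro x hx
    classical
    funext i
    have h := hx (Pi.single i 1)
    rw [T.q_apply, Finset.sum_eq_single i] at h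
    · rw [Pi.single_eq_same, mul_one] at h
      have hd : ((T.d i : ℚ) : ℂ) ≠ 0 := by exact_mod_cast T.d_ne i
      exact (mul_eq_zero.1 h).resolve_left hd
    · intro j _ hj
      rw [Pi.single_eq_of_ne hj, mul_zero]
    · intro h; exact absurd (Finset.mem_univ _) h
  refine ⟨fun x hx => key x hx, fun y hy => key y fun x => ?_⟩
  rw [T.q_comm]; exact hy x

/-- A stable subspace `U` which is paired nondegenerately with its conjugate, and a projector. -/
theorem LieAlg.exists_proj' (hH : LieAlg T H) {U : Submodule ℂ (Fin r → ℂ)}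
    (hU : ∀ X ∈ H, ∀ x ∈ U, X *ᵥ x ∈ U) (hn : ∀ x ∈ U, (∀ y ∈ U, T.q x (cj y) = 0) → x = 0) :
    ∃ P : Matrix (Fin r) (Fin r) ℂ, (∀ X ∈ H, X * P = P * X) ∧
      (∀ x ∈ U, P *ᵥ x = x) ∧ ∀ x, P *ᵥ x ∈ U := by
  set U' := LinearMap.BilinForm.orthogonal (T.q : LinearMap.BilinForm ℂ _) (cjS U) with hU'
  have hdis : Disjoint U U' := by
    rw [Submodule.disjoint_def]
    intro x hx hx'
    refine hn x hx fun y hy => ?_
    have h1 : T.q (cj y) x = 0 := hx' (cj y) (by change cj (cj y) ∈ U; rw [cj_cj]; exact hy)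
    rw [T.q_comm]; exact h1
  have hfr : finrank ℂ U + finrank ℂ U' = finrank ℂ (Fin r → ℂ) := by
    rw [hU', LinearMap.BilinForm.finrank_orthogonal T.nondeg, finrank_cjS]
    have := Submodule.finrank_le U
    omega
  have hc : IsCompl U U' := ⟨hdis, by
    rw [codisjoint_iff]; exact Submodule.eq_top_of_disjoint U U' hfr.ge hdis⟩
  refine ⟨LinearMap.toMatrix' (Submodule.projection U U' hc), ?_, ?_, ?_⟩
  · intro X hX
    have hstab' : ∀ x ∈ U', X *ᵥ x ∈ U' := by
      intro x hx y hy
      have hy' : X *ᵥ y ∈ cjS U := by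
        change cj (X *ᵥ y) ∈ U
        have e : cj (X *ᵥ y) = (X.map (starRingEnd ℂ)) *ᵥ (cj y) := by
          funext i
          simp only [cj, Matrix.mulVec, dotProduct, Matrix.map_apply, map_sum, map_mul]
        rw [e]
        exact hU _ (hH.conj X hX) _ hy
      have h3 := T.skew_q (hH.skew X hX) y x
      have h4 : T.q (X *ᵥ y) x = 0 := hx _ hy'
      change T.q y (X *ᵥ x) = 0
      rw [h4] at h3
      linear_combination h3
    have hcomm : (Matrix.toLin' X) ∘ₗ (Submodule.projection U U' hc) =
        (Submodule.projection U U' hc) ∘ₗ (Matrix.toLin' X) := by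
      apply LinearMap.ext
      intro x
      obtain ⟨y, hy, y', hy', rfl⟩ : ∃ y ∈ U, ∃ y' ∈ U', y + y' = x := by
        have : x ∈ U ⊔ U' := by rw [hc.sup_eq_top]; trivial
        exact Submodule.mem_sup.1 this
      simp only [LinearMap.comp_apply, map_add, Matrix.toLin'_apply]
      have p1 : Submodule.projection U U' hc y = y := Submodule.projection_apply_of_mem_left hc hy
      have p2 : Submodule.projection U U' hc y' = 0 :=
        (Submodule.projection_apply_eq_zero_iff hc).2 hy'
      have p3 : Submodule.projection U U' hc (X *ᵥ y) = X *ᵥ y :=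
        Submodule.projection_apply_of_mem_left hc (hU X hX y hy)
      have p4 : Submodule.projection U U' hc (X *ᵥ y') = 0 :=
        (Submodule.projection_apply_eq_zero_iff hc).2 (hstab' y' hy')
      rw [p1, p2, p3, p4, Matrix.mulVec_zero]
    have h5 := congrArg LinearMap.toMatrix' hcomm
    rw [LinearMap.toMatrix'_comp, LinearMap.toMatrix'_comp, LinearMap.toMatrix'_toLin'] at h5
    exact h5
  · intro x hx
    rw [LinearMap.toMatrix'_mulVec]
    exact Submodule.projection_apply_of_mem_left hc hx
  · intro x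
    rw [LinearMap.toMatrix'_mulVec]
    exact Submodule.projection_apply_mem hc x

/-- If `H` contains the Hodge operator and the only endomorphisms are the rational numbers, then
`H` contains all infinitesimal rotations (a theorem of Zarhin). -/
theorem LieAlg.zarhin (hH : LieAlg T H) (hz : T.z ∈ H) (hE : EndQ T) : ∀ x y, T.wd x y ∈ H := by
  by_cases hiso : ∀ n ∈ Nm T H, ∀ n' ∈ Nm T H, T.q n n' = 0
  · -- the isotropic case is impossible
    exfalso
    let U : Submodule ℂ (Fin r → ℂ) := Submodule.span ℂ {T.ω} ⊔ Nm T H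
    have hmem : ∀ x, x ∈ U ↔ ∃ a : ℂ, ∃ n ∈ Nm T H, x = a • T.ω + n := by
      intro x
      constructor
      · intro hx
        obtain ⟨p, hp, n, hn, rfl⟩ := Submodule.mem_sup.1 hx
        obtain ⟨a, rfl⟩ := Submodule.mem_span_singleton.1 hp
        exact ⟨a, n, hn, rfl⟩
      · rintro ⟨a, n, hn, rfl⟩
        exact add_mem (Submodule.mem_sup_left (Submodule.smul_mem _ _
          (Submodule.mem_span_singleton_self _))) (Submodule.mem_sup_right hn)
    have hωω' : T.q T.ω T.ω' = T.h := rfl
    have hω0 : T.z *ᵥ T.ω = (2 : ℂ) • T.ω := T.z_ω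
    have hstab : ∀ X ∈ H, ∀ x ∈ U, X *ᵥ x ∈ U := by
      intro X hX x hx
      obtain ⟨a, n, hn, rfl⟩ := (hmem x).1 hx
      obtain ⟨α, m, e, m1, m2, m3⟩ := hH.low hX
      have hm : m ∈ Nm T H := ⟨m1, m2, m3⟩
      have hXn : X *ᵥ n ∈ U := by
        -- bracket of `X` with `conj ω ∧ n`
        obtain ⟨β, m', e', m1', m2', m3'⟩ := hH.low (hH.conj X hX)
        have eω' : X *ᵥ T.ω' = starRingEnd ℂ β • T.ω' + cj m' := by
          have e3 := congrArg cj e'
          rw [cj_add, cj_smul, T.cj_ω] at e3
          rw [← e3]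
          funext i
          simp only [cj, Matrix.mulVec, dotProduct, K3Type.ω', Matrix.map_apply, map_sum, map_mul,
            Complex.conj_conj]
        have hm' : cj m' ∈ Np T H := hH.cj_Nm ⟨m1', m2', m3'⟩
        set y := X *ᵥ n with hy
        -- the component of `y` along `conj ω` vanishes
        have y1 : T.q T.ω y = 0 := by
          have h3 := T.skew_q (hH.skew X hX) T.ω n
          rw [e, map_add, map_smul, LinearMap.add_apply, LinearMap.smul_apply, hn.1,
            hiso m hm n hn] at h3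
          rw [hy]
          linear_combination h3
        set w := y - (T.q T.ω' y / T.h) • T.ω with hw
        have w1 : T.q T.ω w = 0 := by
          rw [hw, map_sub, map_smul, T.q_ωω, smul_zero, y1, sub_zero]
        have w2 : T.q T.ω' w = 0 := by
          rw [hw, map_sub, map_smul, T.q_ω'ω, smul_eq_mul, div_mul_cancel₀ _ T.h_ne, sub_self]
        have ey : y = (T.q T.ω' y / T.h) • T.ω + w := by rw [hw]; abel
        -- use the degree zero part: bracket with the Hodge operator
        have b0 := hH.br X hX _ hn.2.2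
        rw [T.br_wd (hH.skew X hX), eω', ← hy, T.wd_add_left, T.wd_smul_left, ey, T.wd_add_right,
          T.wd_smul_right] at b0
        set Z1 := T.wd T.ω' w with hZ1
        set Z2 := T.wd (cj m') n with hZ2
        set Z3 := T.wd T.ω' T.ω with hZ3
        set β' := starRingEnd ℂ β
        set γ := T.q T.ω' y / T.h
        -- `B = β' • wd ω' n + Z2 + (γ • Z3 + Z1) ∈ H`
        have hb1 : Z2 + γ • Z3 + Z1 ∈ H := by
          have : Z2 + γ • Z3 + Z1 = (β' • T.wd T.ω' n + Z2 + (γ • Z3 + Z1)) -
              β' • T.wd T.ω' n := by abel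
          rw [this]
          exact H.sub_mem b0 (H.smul_mem _ hn.2.2)
        -- the bracket with `z` keeps only `Z1`
        have hb2 := hH.zb _ hb1
        have c1 : T.z * Z1 - Z1 * T.z = (-2 : ℂ) • Z1 := by
          rw [hZ1, T.br_wd T.z_skew, T.z_ω', T.z_W w1 w2, T.wd_smul_left]
          have : T.wd T.ω' 0 = 0 := by ext i j; simp [K3Type.wd]
          rw [this, add_zero]
        have c2 : T.z * Z2 - Z2 * T.z = 0 := by
          rw [hZ2, T.br_wd T.z_skew, T.z_W hm'.1 hm'.2.1, T.z_W hn.1 hn.2.1]
          ext i j; simp [K3Type.wd]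
        have c3 : T.z * Z3 - Z3 * T.z = 0 := by
          rw [hZ3, T.br_wd T.z_skew, T.z_ω', T.z_ω, T.wd_smul_left, T.wd_smul_right]
          ext i j
          simp only [Matrix.add_apply, Matrix.smul_apply, Matrix.zero_apply, smul_eq_mul]
          ring
        have c4 : T.z * (Z2 + γ • Z3 + Z1) - (Z2 + γ • Z3 + Z1) * T.z = (-2 : ℂ) • Z1 := by
          have : T.z * (Z2 + γ • Z3 + Z1) - (Z2 + γ • Z3 + Z1) * T.z =
              (T.z * Z2 - Z2 * T.z) + γ • (T.z * Z3 - Z3 * T.z) + (T.z * Z1 - Z1 * T.z) := by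
            rw [Matrix.mul_add, Matrix.mul_add, Matrix.add_mul, Matrix.add_mul, Matrix.mul_smul,
              Matrix.smul_mul]
            module
          rw [this, c1, c2, c3, smul_zero, zero_add, zero_add]
        rw [c4] at hb2
        have hZ1m : Z1 ∈ H := by
          have : Z1 = (-(1 / 2) : ℂ) • ((-2 : ℂ) • Z1) := by module
          rw [this]; exact H.smul_mem _ hb2
        rw [ey]
        exact (hmem _).2 ⟨_, w, ⟨w1, w2, hZ1m⟩, rfl⟩
      rw [Matrix.mulVec_add, Matrix.mulVec_smul, e]
      refine add_mem (Submodule.smul_mem _ _ ?_) hXn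
      exact (hmem _).2 ⟨α, m, hm, rfl⟩
    have hnd : ∀ x ∈ U, (∀ y ∈ U, T.q x (cj y) = 0) → x = 0 := by
      intro x hx h
      obtain ⟨a, n, hn, rfl⟩ := (hmem x).1 hx
      have h1 := h T.ω ((hmem _).2 ⟨1, 0, Submodule.zero_mem _, by simp⟩)
      rw [T.cj_ω, map_add, map_smul, LinearMap.add_apply, LinearMap.smul_apply, hωω',
        T.q_comm n, hn.2.1, add_zero, smul_eq_mul] at h1
      have ha := (mul_eq_zero.1 h1).resolve_right T.h_ne
      subst ha
      have h2 := h n ((hmem _).2 ⟨0, n, hn, by simp⟩)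
      rw [zero_smul, zero_add] at h2 ⊢
      exact T.q_self_cj hn.1 hn.2.1 h2
    obtain ⟨P, P1, P2, P3⟩ := hH.exists_proj' hstab hnd
    obtain ⟨s1, s2⟩ := hH.scalar hz hE P1
    have hω : T.ω ≠ 0 := by
      intro h
      apply T.h_ne
      rw [K3Type.h, h, map_zero, LinearMap.zero_apply]
    obtain ⟨i, hi⟩ := Function.ne_iff.1 hω
    have hPx : ∀ x : Fin r → ℂ, P *ᵥ x = P i i • x := by
      intro x
      funext k
      rw [Matrix.mulVec, dotProduct, Finset.sum_eq_single k]
      · rw [Pi.smul_apply, smul_eq_mul, s2 k i]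
      · intro j _ hj
        rw [s1 k j hj.symm, zero_mul]
      · intro h; exact absurd (Finset.mem_univ _) h
    have hone : P i i = 1 := by
      have h3 := congrFun (P2 T.ω ((hmem _).2 ⟨1, 0, Submodule.zero_mem _, by simp⟩)) i
      rw [hPx, Pi.smul_apply, smul_eq_mul] at h3
      exact mul_right_cancel₀ hi (by rw [h3, one_mul])
    have htop : T.ω' ∈ U := by
      have := P3 T.ω'
      rwa [hPx, hone, one_smul] at this
    obtain ⟨a, n, hn, e⟩ := (hmem _).1 htop
    have h4 := congrArg (T.q T.ω) e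
    rw [hωω', map_add, map_smul, T.q_ωω, hn.1, smul_zero, add_zero] at h4
    exact T.h_ne h4
  · push Not at hiso
    obtain ⟨n, hn, n', hn', hq⟩ := hiso
    -- a non-isotropic vector
    have : ∃ w ∈ Nm T H, T.q w w ≠ 0 := by
      by_contra hc
      push Not at hc
      have h1 := hc n hn
      have h2 := hc n' hn'
      have h3 := hc (n + n') ((Nm T H).add_mem hn hn')
      simp only [map_add, LinearMap.add_apply] at h3
      rw [h1, h2, T.q_comm n' n] at h3
      apply hq
      have h4 : (2 : ℂ) * T.q n n' = 0 := by linear_combination h3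
      exact (mul_eq_zero.1 h4).resolve_left two_ne_zero
    obtain ⟨w, hw1, hw2⟩ := this
    have hw3 : T.q (cj w) (cj w) ≠ 0 := by
      rw [T.q_cj]
      exact (map_ne_zero _).2 hw2
    exact (hH.full (hH.cj_Nm hw1) hw3 hE).2

end Pool.Agent.Q263.K3
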