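import Mathlib
import Pool.Agent.Q263.K3.Zar

/-!
# Endomorphisms and independent periods
-/

set_option linter.unusedSectionVars false

namespace Pool.Agent.Q263.K3

open Function Module Matrix IntermediateField

variable {r : ℕ} {T : K3Type r}

/-- If there are many independent periods compared with the smallest prime factor of the rank, then
the only endomorphisms are the rational numbers. -/
theorem endQ_of_minFac {s : Finset (Fin r)} (hr : r < r.minFac * (s.card + 1)) {i0 : Fin r}
    (h0 : T.ω i0 = 1) (δ : s → Derivation ℚ ℂ ℂ)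
    (hδ : ∀ a b : s, δ a (T.ω b) = if a = b then 1 else 0) : EndQ T := by
  classical
  intro a ha
  have h1 : T.z *ᵥ ((a.map (fun x => (x : ℂ))) *ᵥ T.ω) = (2 : ℂ) •
      ((a.map (fun x => (x : ℂ))) *ᵥ T.ω) := by
    rw [Matrix.mulVec_mulVec, ← ha, ← Matrix.mulVec_mulVec, T.z_ω, Matrix.mulVec_smul]
  obtain ⟨l, hl⟩ := T.eigen_two h1
  let L0 : Submodule ℚ ℂ := Submodule.span ℚ (Set.range T.ω)
  have hmem : ∀ j, T.ω j ∈ L0 := fun j => Submodule.subset_span ⟨j, rfl⟩
  have hlm : ∀ x ∈ L0, l * x ∈ L0 := by
    intro x hx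
    induction hx using Submodule.span_induction with
    | mem x hx =>
      obtain ⟨j, rfl⟩ := hx
      have := congrFun hl j
      rw [Pi.smul_apply, smul_eq_mul] at this
      rw [← this, Matrix.mulVec, dotProduct]
      refine Submodule.sum_mem _ fun k _ => ?_
      rw [Matrix.map_apply, ← Rat.smul_def]
      exact L0.smul_mem _ (hmem k)
    | zero => rw [mul_zero]; exact L0.zero_mem
    | add x y _ _ hx hy => rw [mul_add]; exact L0.add_mem hx hy
    | smul c x _ hx => rw [mul_smul_comm]; exact L0.smul_mem _ hx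
  have h1L : (1 : ℂ) ∈ L0 := h0 ▸ hmem i0
  have hfg : L0.FG := by
    rw [Submodule.fg_def]
    exact ⟨Set.range T.ω, Set.finite_range _, rfl⟩
  have hint : IsIntegral ℚ l := by
    refine isIntegral_of_smul_mem_submodule (M := ℂ) L0 ?_ hfg l fun x hx => hlm x hx
    intro h
    rw [h, Submodule.mem_bot] at h1L
    exact one_ne_zero h1L
  have hstab : ∀ x ∈ ℚ⟮l⟯, ∀ y ∈ L0, x * y ∈ L0 := by
    intro x hx
    have hx' : x ∈ Algebra.adjoin ℚ {l} := by
      rw [← IntermediateField.adjoin_simple_toSubalgebra_of_isAlgebraic hint.isAlgebraic]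
      exact hx
    clear hx
    induction hx' using Algebra.adjoin_induction with
    | mem x hx =>
      rw [Set.mem_singleton_iff] at hx
      subst hx
      exact hlm
    | algebraMap c =>
      intro y hy
      rw [← Algebra.smul_def]; exact L0.smul_mem _ hy
    | add x y _ _ ihx ihy =>
      intro w hw
      rw [add_mul]; exact L0.add_mem (ihx w hw) (ihy w hw)
    | mul x y _ _ ihx ihy =>
      intro w hw
      rw [mul_assoc]; exact ihx _ (ihy w hw)
  let L1 : Submodule ℚ⟮l⟯ ℂ :=
    { carrier := L0
      add_mem' := fun h h' => L0.add_mem h h'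
      zero_mem' := L0.zero_mem
      smul_mem' := fun c x hx => hstab c.1 c.2 x hx }
  have hfdL : FiniteDimensional ℚ ℚ⟮l⟯ := IntermediateField.adjoin.finiteDimensional hint
  let eqv : L0 ≃ₗ[ℚ] L1 :=
    { toFun := fun x => ⟨x.1, x.2⟩
      invFun := fun x => ⟨x.1, x.2⟩
      map_add' := fun _ _ => rfl
      map_smul' := fun _ _ => rfl
      left_inv := fun _ => rfl
      right_inv := fun _ => rfl }
  have : FiniteDimensional ℚ L0 := FiniteDimensional.span_of_finite ℚ (Set.finite_range _)
  have : Module.Finite ℚ L1 := Module.Finite.equiv eqv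
  have : Module.Finite ℚ⟮l⟯ L1 := Module.Finite.of_restrictScalars_finite ℚ ℚ⟮l⟯ L1
  have hL0 : finrank ℚ L0 = r := by
    have := finrank_span_eq_card T.indep
    rw [Fintype.card_fin] at this
    exact this
  have hmul : finrank ℚ ℚ⟮l⟯ * finrank ℚ⟮l⟯ L1 = r := by
    rw [Module.finrank_mul_finrank, ← eqv.finrank_eq, hL0]
  have hδl : ∀ (i : s) (x : ℚ⟮l⟯), δ i (x : ℂ) = 0 := by
    intro i x
    apply derivation_algebraic
    have : IsIntegral ℚ x := Algebra.IsIntegral.isIntegral x
    exact this.map (IntermediateField.val ℚ⟮l⟯)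
  let f : Option s → L1 := fun o => match o with
    | none => ⟨1, h1L⟩
    | some j => ⟨T.ω j, hmem _⟩
  have hf : LinearIndependent ℚ⟮l⟯ f := by
    rw [Fintype.linearIndependent_iff]
    intro g hg
    have hg' : (g none : ℂ) * 1 + ∑ j : s, (g (some j) : ℂ) * T.ω j = 0 := by
      have := congrArg Subtype.val hg
      rw [Fintype.sum_option] at this
      simpa [f, IntermediateField.smul_def] using this
    have hj : ∀ j : s, (g (some j) : ℂ) = 0 := by
      intro j
      have h2 := congrArg (δ j) hg'
      rw [map_add, map_sum, map_zero, mul_one, hδl, zero_add] at h2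
      have e2 : ∀ i : s, δ j ((g (some i) : ℂ) * T.ω i) = if j = i then (g (some i) : ℂ) else 0 := by
        intro i
        rw [(δ j).leibniz, hδl, hδ]
        split_ifs <;> simp
      rw [Finset.sum_congr rfl fun i _ => e2 i] at h2
      simpa using h2
    intro o
    rcases o with _ | j
    · have : ∑ j : s, (g (some j) : ℂ) * T.ω j = 0 := by
        apply Finset.sum_eq_zero
        intro j _
        rw [hj, zero_mul]
      rw [this, add_zero, mul_one] at hg'
      exact_mod_cast hg'
    · exact_mod_cast hj j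
  have hcard := hf.fintype_card_le_finrank
  rw [Fintype.card_option, Fintype.card_coe] at hcard
  have hone : finrank ℚ ℚ⟮l⟯ = 1 := by
    by_contra hne
    have hpos : 0 < finrank ℚ ℚ⟮l⟯ := Module.finrank_pos
    have hdvd : finrank ℚ ℚ⟮l⟯ ∣ r := ⟨_, hmul.symm⟩
    have hle : r.minFac ≤ finrank ℚ ℚ⟮l⟯ := Nat.minFac_le_of_dvd (by omega) hdvd
    have := Nat.mul_le_mul hle hcard
    rw [hmul] at this
    omega
  have hbot : l ∈ (⊥ : IntermediateField ℚ ℂ) := by
    have := IntermediateField.finrank_adjoin_simple_eq_one_iff.1 hone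
    exact this
  obtain ⟨c, hc⟩ := IntermediateField.mem_bot.1 hbot
  have hlc : l = (c : ℂ) := by rw [← hc]; simp
  subst hlc
  refine ⟨c, ?_⟩
  ext i j
  have h2 := T.indep
  rw [Fintype.linearIndependent_iff] at h2
  have h3 := h2 (fun j => (a - c • 1) i j) (by
    have := congrFun hl i
    rw [Matrix.mulVec, dotProduct, Pi.smul_apply, smul_eq_mul] at this
    have e : ∑ j, (a - c • (1 : Matrix (Fin r) (Fin r) ℚ)) i j • T.ω j =
        ∑ j, (a.map (fun x => (x : ℂ))) i j * T.ω j - (c : ℂ) * T.ω i := by
      simp only [Rat.smul_def, Matrix.sub_apply, Matrix.smul_apply, Rat.cast_sub, sub_mul,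
        Finset.sum_sub_distrib, Matrix.map_apply, smul_eq_mul, Rat.cast_mul]
      congr 1
      rw [Finset.sum_eq_single i]
      · rw [Matrix.one_apply_eq]; simp
      · intro j _ hj
        rw [Matrix.one_apply_ne hj.symm]; simp
      · intro h; exact absurd (Finset.mem_univ _) h
    rw [e, this, sub_self]) j
  rw [Matrix.sub_apply, sub_eq_zero] at h3
  exact h3

end Pool.Agent.Q263.K3
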