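import Mathlib
import Pool.Agent.Q263.K3.Deg
import Pool.Agent.TH504.CB.DerK

/-!
# Hodge classes on the product of the powers of a variety of K3 type and any variety
-/

set_option linter.unusedSectionVars false

namespace Pool.Agent.Q263.K3

open Function Module Matrix

variable {r v : ℕ} {T : K3Type r} {A : Matrix (Fin v) (Fin v) ℂ}

/-- The skew matrices which, together with a matrix acting on the values, kill all Hodge
classes. -/
def GG (T : K3Type r) (A : Matrix (Fin v) (Fin v) ℂ) :
    Submodule ℂ (Matrix (Fin r) (Fin r) ℂ) where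
  carrier := {X | T.Skew X ∧ ∃ B : Matrix (Fin v) (Fin v) ℂ, ∀ (a : ℕ)
    (t : Tens r a (Fin v → ℚ)), IsHodge T A t → act X (castT t) + actY B (castT t) = 0}
  add_mem' := by
    rintro X Y ⟨x1, B, x2⟩ ⟨y1, C, y2⟩
    refine ⟨fun i j => ?_, B + C, fun a t ht => ?_⟩
    · simp only [Matrix.add_apply]
      linear_combination x1 i j + y1 i j
    · have h1 := x2 a t ht
      have h2 := y2 a t ht
      funext I b
      have h3 := congrFun (congrFun h1 I) b
      have h4 := congrFun (congrFun h2 I) b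
      simp only [Pi.add_apply, act_castT_apply, Pi.zero_apply, actY, Matrix.add_mulVec] at h3 h4 ⊢
      simp only [Matrix.add_apply, add_mul, Finset.sum_add_distrib]
      linear_combination h3 + h4
  zero_mem' := by
    refine ⟨fun i j => by simp, 0, fun a t _ => ?_⟩
    funext I b
    simp [act_castT_apply, actY]
  smul_mem' := by
    rintro c X ⟨x1, B, x2⟩
    refine ⟨fun i j => ?_, c • B, fun a t ht => ?_⟩
    · simp only [Matrix.smul_apply, smul_eq_mul]
      linear_combination c * x1 i j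
    · have h1 := x2 a t ht
      funext I b
      have h3 := congrFun (congrFun h1 I) b
      simp only [Pi.add_apply, act_castT_apply, Pi.zero_apply, actY, Matrix.smul_mulVec,
        Pi.smul_apply, smul_eq_mul] at h3 ⊢
      simp only [Matrix.smul_apply, smul_eq_mul, mul_assoc, ← Finset.mul_sum]
      linear_combination c * h3

theorem z_mem_GG : T.z ∈ GG T A := ⟨T.z_skew, A, fun _ _ ht => ht⟩

theorem actY_actY {a : ℕ} (B C : Matrix (Fin v) (Fin v) ℂ) (t : Tens r a (Fin v → ℂ)) :
    actY B (actY C t) = actY (B * C) t := by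
  funext I
  simp only [actY, Matrix.mulVec_mulVec]

theorem actY_neg {a : ℕ} (B : Matrix (Fin v) (Fin v) ℂ) (t : Tens r a (Fin v → ℂ)) :
    actY B (-t) = -actY B t := by
  funext I
  simp only [actY, Pi.neg_apply, Matrix.mulVec_neg]

theorem GG_br {X Y : Matrix (Fin r) (Fin r) ℂ} (hX : X ∈ GG T A) (hY : Y ∈ GG T A) :
    X * Y - Y * X ∈ GG T A := by
  obtain ⟨x1, B, x2⟩ := hX
  obtain ⟨y1, C, y2⟩ := hY
  refine ⟨K3Type.skew_br x1 y1, B * C - C * B, fun a t ht => ?_⟩
  have h1 : act X (castT t) = -actY B (castT t) := eq_neg_of_add_eq_zero_left (x2 a t ht)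
  have h2 : act Y (castT t) = -actY C (castT t) := eq_neg_of_add_eq_zero_left (y2 a t ht)
  rw [act_bracket, h1, h2, act_neg, act_neg, act_actY, act_actY, h1, h2, actY_neg, actY_neg,
    actY_actY, actY_actY]
  funext I
  simp only [actY, Pi.add_apply, Pi.sub_apply, Pi.neg_apply, Matrix.sub_mulVec, Pi.zero_apply]
  abel

theorem GG_ideal {X Y : Matrix (Fin r) (Fin r) ℂ} (hX : X ∈ GG T A) (hY : Y ∈ HL T A) :
    X * Y - Y * X ∈ HL T A := by
  obtain ⟨x1, B, x2⟩ := hX
  obtain ⟨y1, y2⟩ := hY
  refine ⟨K3Type.skew_br x1 y1, fun a t ht => ?_⟩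
  have h1 : act X (castT t) = -actY B (castT t) := eq_neg_of_add_eq_zero_left (x2 a t ht)
  rw [act_bracket, h1, y2 a t ht, act_zero, act_neg, act_actY, y2 a t ht, actY_zero]
  simp

theorem GG_lieAlg (T : K3Type r) (A : Matrix (Fin v) (Fin v) ℂ) : LieAlg T (GG T A) where
  skew := fun X hX => hX.1
  zb := fun X hX => GG_br z_mem_GG hX
  br := fun X hX Y hY => GG_br hX hY
  conj := by
    rintro X ⟨x1, B, x2⟩
    refine ⟨fun i j => ?_, B.map (starRingEnd ℂ), fun a t ht => ?_⟩
    · have := congrArg (starRingEnd ℂ) (x1 i j)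
      simpa using this
    · have h1 := x2 a t ht
      funext I b
      have h3 := congrArg (starRingEnd ℂ) (congrFun (congrFun h1 I) b)
      rw [Pi.add_apply, Pi.add_apply, act_castT_apply] at h3 ⊢
      simpa [actY, castT, Matrix.mulVec, dotProduct] using h3
  ra := by
    rintro X ⟨x1, B, x2⟩ τ
    refine ⟨fun i j => ?_, B.map (fun x => ((τ x : ℚ) : ℂ)), fun a t ht => ?_⟩
    · have h1 : (T.d i) • X i j + (T.d j) • X j i = 0 := by
        rw [Rat.smul_def, Rat.smul_def]; exact x1 i j
      have h2 := congrArg τ h1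
      rw [map_add, map_smul, map_smul, map_zero, smul_eq_mul, smul_eq_mul] at h2
      simp only [Matrix.map_apply]
      exact_mod_cast h2
    · have h1 := x2 a t ht
      funext I b
      have h3 := congrFun (congrFun h1 I) b
      rw [Pi.add_apply, Pi.add_apply, act_castT_apply] at h3 ⊢
      simp only [actY, castT, Matrix.mulVec, dotProduct, Pi.zero_apply] at h3 ⊢
      have h4 : ∑ s : Fin a, ∑ j : Fin r, (t (update I s j) b) • X (I s) j +
          ∑ c, (t I c) • B b c = 0 := by
        rw [← h3]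
        congr 1
        · refine Finset.sum_congr rfl fun s _ => Finset.sum_congr rfl fun j _ => ?_
          rw [Rat.smul_def, mul_comm]
        · refine Finset.sum_congr rfl fun c _ => ?_
          rw [Rat.smul_def, mul_comm]
      have h5 := congrArg τ h4
      simp only [map_add, map_sum, map_smul, map_zero, smul_eq_mul] at h5
      simp only [Matrix.map_apply]
      have h6 : (((∑ s : Fin a, ∑ j : Fin r, t (update I s j) b * τ (X (I s) j) +
          ∑ c, t I c * τ (B b c) : ℚ)) : ℂ) = 0 := by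
        rw [h5]; simp
      rw [← h6]
      push_cast
      congr 1
      · refine Finset.sum_congr rfl fun s _ => Finset.sum_congr rfl fun j _ => ?_
        rw [mul_comm]
      · refine Finset.sum_congr rfl fun c _ => ?_
        rw [mul_comm]

/-- If no vector moves then `HL` is zero. -/
theorem eq_zero_of_Nm (hE : EndQ T) (hN : ∀ n ∈ Nm T (HL T A), n = 0)
    {X : Matrix (Fin r) (Fin r) ℂ} (hX : X ∈ HL T A) : X = 0 := by
  have hH := HL_lieAlg T A
  have hωω' : T.q T.ω T.ω' = T.h := rfl
  -- skew matrices in `HL` commute with the Hodge operator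
  have hcomm : ∀ Y ∈ HL T A, Y * T.z = T.z * Y := by
    intro Y hY
    obtain ⟨α, n, e, n1, n2, n3⟩ := hH.low hY
    rw [hN n ⟨n1, n2, n3⟩, add_zero] at e
    obtain ⟨β, m, e', m1, m2, m3⟩ := hH.low (hH.conj Y hY)
    rw [hN m ⟨m1, m2, m3⟩, add_zero] at e'
    have eω' : Y *ᵥ T.ω' = starRingEnd ℂ β • T.ω' := by
      have e3 := congrArg cj e'
      rw [cj_smul, T.cj_ω] at e3
      rw [← e3]
      funext i
      simp only [cj, Matrix.mulVec, dotProduct, K3Type.ω', Matrix.map_apply, map_sum, map_mul,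
        Complex.conj_conj]
    have h1 := T.skew_q (hH.skew Y hY) T.ω T.ω'
    rw [e, eω', map_smul, map_smul, LinearMap.smul_apply, hωω', smul_eq_mul, smul_eq_mul] at h1
    have h2 : (α + starRingEnd ℂ β) * T.h = 0 := by linear_combination h1
    have h3 := (mul_eq_zero.1 h2).resolve_right T.h_ne
    have h4 := T.br_wd (hH.skew Y hY) T.ω' T.ω
    rw [e, eω', T.wd_smul_left, T.wd_smul_right, ← add_smul, add_comm, h3, zero_smul] at h4
    rw [T.z_eq, Matrix.mul_smul, Matrix.smul_mul, ← sub_eq_zero, ← smul_sub, h4, smul_zero]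
  have hτ : ∀ τ : ℂ →ₗ[ℚ] ℚ, X.map τ = 0 := by
    intro τ
    have h1 := hH.ra X hX τ
    have e : X.map (fun x => ((τ x : ℚ) : ℂ)) = (X.map τ).map (fun x => (x : ℂ)) := by
      ext i j; simp
    rw [e] at h1
    obtain ⟨c, hc⟩ := hE (X.map τ) (hcomm _ h1)
    have hc0 : c = 0 := by
      have hω : T.ω ≠ 0 := by
        intro h
        apply T.h_ne
        rw [K3Type.h, h, map_zero, LinearMap.zero_apply]
      obtain ⟨i, hi⟩ := Function.ne_iff.1 hω
      have h2 := (hH.skew _ h1) i i
      rw [hc] at h2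
      simp only [Matrix.map_apply, Matrix.smul_apply, Matrix.one_apply_eq, smul_eq_mul,
        mul_one] at h2
      have hd : ((T.d i : ℚ) : ℂ) ≠ 0 := by exact_mod_cast T.d_ne i
      have h3 : (2 : ℂ) * (T.d i : ℂ) * (c : ℂ) = 0 := by linear_combination h2
      rcases mul_eq_zero.1 h3 with h4 | h4
      · rcases mul_eq_zero.1 h4 with h5 | h5
        · norm_num at h5
        · exact absurd h5 hd
      · exact_mod_cast h4
    rw [hc, hc0, zero_smul]
  ext i j
  rw [Matrix.zero_apply, ← Module.forall_dual_apply_eq_zero_iff ℚ]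
  intro τ
  have := congrFun (congrFun (hτ τ) i) j
  simpa using this

/-- If `HL` is not zero, the only endomorphisms are the rational numbers and the rank is not four,
then `HL` contains all infinitesimal rotations. -/
theorem HL_full (hE : EndQ T) (hr : r ≠ 4) {X : Matrix (Fin r) (Fin r) ℂ} (hX : X ∈ HL T A)
    (hX0 : X ≠ 0) : T.z ∈ HL T A ∧ ∀ x y, T.wd x y ∈ HL T A := by
  classical
  have hH := HL_lieAlg T A
  have hG := (GG_lieAlg T A).zarhin z_mem_GG hE
  obtain ⟨n, hn, hn0⟩ : ∃ n ∈ Nm T (HL T A), n ≠ 0 := by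
    by_contra hc
    push Not at hc
    exact hX0 (eq_zero_of_Nm hE hc hX)
  have hcjW : ∀ {m : Fin r → ℂ}, m ∈ Nm T (HL T A) → T.q T.ω (cj m) = 0 ∧ T.q T.ω' (cj m) = 0 :=
    fun {m} hm => ⟨by rw [T.q_ω_cj, hm.2.1, map_zero], by rw [T.q_ω'_cj, hm.1, map_zero]⟩
  have hnn : ∀ {m : Fin r → ℂ}, m ∈ Nm T (HL T A) → m ≠ 0 → T.q (cj m) m ≠ 0 := by
    intro m hm hm0 h
    apply hm0
    rw [T.q_comm] at h
    exact T.q_self_cj hm.1 hm.2.1 h
  -- vectors orthogonal to a moving vector move
  have claim : ∀ {m x : Fin r → ℂ}, m ∈ Nm T (HL T A) → m ≠ 0 → T.q T.ω x = 0 →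
      T.q T.ω' x = 0 → T.q m x = 0 → x ∈ Nm T (HL T A) := by
    intro m x hm hm0 x1 x2 hmx
    obtain ⟨c1, c2⟩ := hcjW hm
    have b := GG_ideal (hG (cj m) x) hm.2.2
    rw [T.br_wd (T.wd_skew _ _), T.wd_mulVec, T.wd_mulVec, T.q_comm (cj m) T.ω', c2,
      T.q_comm x T.ω', x2, T.q_comm x m, hmx] at b
    have e : T.wd T.ω' x = (1 / T.q (cj m) m) •
        (T.wd ((0 : ℂ) • x - (0 : ℂ) • cj m) m + T.wd T.ω' (T.q (cj m) m • x - (0 : ℂ) • cj m)) := by
      have h0 := hnn hm hm0
      ext i j
      simp only [K3Type.wd, Matrix.smul_apply, Matrix.add_apply, Pi.smul_apply, Pi.sub_apply,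
        smul_eq_mul]
      field_simp
      ring
    refine ⟨x1, x2, ?_⟩
    rw [e]
    exact (HL T A).smul_mem _ b
  have hw : ∃ w ∈ Nm T (HL T A), T.q w w ≠ 0 := by
    by_cases hq : T.q n n = 0
    swap
    · exact ⟨n, hn, hq⟩
    obtain ⟨c1, c2⟩ := hcjW hn
    have hqc : T.q (cj n) (cj n) = 0 := by rw [T.q_cj, hq, map_zero]
    have hk := hnn hn hn0
    have hωω' : T.q T.ω T.ω' = T.h := rfl
    -- the rank is at least four
    have hr4 : 4 ≤ r := by
      have hli : LinearIndependent ℂ ![T.ω, T.ω', n, cj n] := by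
        rw [Fintype.linearIndependent_iff]
        intro g hg
        rw [Fin.sum_univ_four] at hg
        simp only [Matrix.cons_val_zero, Matrix.cons_val_one, Matrix.cons_val] at hg
        have q1 := congrArg (T.q T.ω) hg
        have q2 := congrArg (T.q T.ω') hg
        have q3 := congrArg (T.q n) hg
        have q4 := congrArg (T.q (cj n)) hg
        simp only [map_add, map_smul, map_zero, smul_eq_mul] at q1 q2 q3 q4
        rw [T.q_ωω, hωω', hn.1, c1] at q1
        rw [T.q_ω'ω, T.q_ω'ω', hn.2.1, c2] at q2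
        rw [T.q_comm n T.ω, T.q_comm n T.ω', hn.1, hn.2.1, hq, T.q_comm n (cj n)] at q3
        rw [T.q_comm (cj n) T.ω, T.q_comm (cj n) T.ω', c1, c2, hqc] at q4
        have g1 : g 1 = 0 := (mul_eq_zero.1 (by linear_combination q1 : g 1 * T.h = 0)).resolve_right T.h_ne
        have g0 : g 0 = 0 := (mul_eq_zero.1 (by linear_combination q2 : g 0 * T.h = 0)).resolve_right T.h_ne
        have g3 : g 3 = 0 := (mul_eq_zero.1 (by linear_combination q3 :
          g 3 * T.q (cj n) n = 0)).resolve_right hk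
        have g2 : g 2 = 0 := (mul_eq_zero.1 (by linear_combination q4 :
          g 2 * T.q (cj n) n = 0)).resolve_right hk
        intro i
        fin_cases i
        · exact g0
        · exact g1
        · exact g2
        · exact g3
      have := hli.fintype_card_le_finrank
      simpa using this
    have hr5 : 5 ≤ r := by omega
    -- a vector orthogonal to everything so far
    let f : (Fin r → ℂ) →ₗ[ℂ] (Fin 4 → ℂ) :=
      LinearMap.pi ![T.q T.ω, T.q T.ω', T.q n, T.q (cj n)]
    have hker : LinearMap.ker f ≠ ⊥ := by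
      apply LinearMap.ker_ne_bot_of_finrank_lt
      simp
      omega
    obtain ⟨w, hwf, hw0⟩ := Submodule.exists_mem_ne_zero_of_ne_bot hker
    rw [LinearMap.mem_ker] at hwf
    have w1 : T.q T.ω w = 0 := congrFun hwf 0
    have w2 : T.q T.ω' w = 0 := congrFun hwf 1
    have w3 : T.q n w = 0 := congrFun hwf 2
    have w4 : T.q (cj n) w = 0 := congrFun hwf 3
    have hwN := claim hn hn0 w1 w2 w3
    have hcN := claim hwN hw0 c1 c2 (by rw [T.q_comm]; exact w4)
    refine ⟨n + cj n, (Nm T (HL T A)).add_mem hn hcN, ?_⟩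
    simp only [map_add, LinearMap.add_apply]
    rw [hq, hqc, T.q_comm n (cj n)]
    intro h
    apply hk
    have : (2 : ℂ) * T.q (cj n) n = 0 := by linear_combination h
    exact (mul_eq_zero.1 this).resolve_left two_ne_zero
  obtain ⟨w, hw1, hw2⟩ := hw
  have hw3 : T.q (cj w) (cj w) ≠ 0 := by
    rw [T.q_cj]
    exact (map_ne_zero _).2 hw2
  exact hH.full (hH.cj_Nm hw1) hw3 hE

/-- From the infinitesimal rotations to the generators of the Hodge classes. -/
theorem gen_of_full {a : ℕ} (har : a < r) (h : T.z ∈ HL T A ∧ ∀ x y, T.wd x y ∈ HL T A)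
    (t : Tens r a (Fin v → ℚ)) (ht : IsHodge T A t) : Gen T.d (hodgeY A) a t := by
  classical
  obtain ⟨hz, hwd⟩ := h
  have hz2 := hz.2 a t ht
  refine fft T.d_ne a har t (fun I => ?_) fun p q hpq => ?_
  · have h5 : act T.z (castT t) + actY A (castT t) = 0 := ht
    rw [hz2, zero_add] at h5
    exact congrFun h5 I
  · have h6 := (hwd (Pi.single q 1) (Pi.single p 1)).2 a t ht
    funext I
    funext b
    have h7 := congrFun (congrFun h6 I) b
    rw [act_castT_apply] at h7
    have h8 : ∀ i j, T.wd (Pi.single q 1) (Pi.single p 1) i j = ((rot T.d p q i j : ℚ) : ℂ) := by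
      intro i j
      simp only [K3Type.wd, rot, Pi.single_apply]
      by_cases hip : i = p
      · subst hip
        by_cases hjq : j = q
        · subst hjq; simp [hpq, hpq.symm]
        · by_cases hji : j = i
          · subst hji; simp [hpq]
          · simp [hjq, hpq]
      · by_cases hiq : i = q
        · subst hiq
          by_cases hjp : j = p
          · subst hjp; simp [hip]
          · simp [hip, hjp]
        · simp [hip, hiq]
    simp only [h8] at h7
    have h9 : ((act (rot T.d p q) t I b : ℚ) : ℂ) = 0 := by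
      rw [Pi.zero_apply, Pi.zero_apply] at h7
      rw [← h7]
      simp only [act, Finset.sum_apply, Pi.smul_apply, smul_eq_mul]
      push_cast
      rfl
    rw [Pi.zero_apply, Pi.zero_apply]
    exact_mod_cast h9

/-- A rational tensor of degree `a` is a Hodge class on the powers of `X`. -/
def IsHodgeX (T : K3Type r) {a : ℕ} (u : Tens r a ℚ) : Prop :=
  act T.z (fun I => ((u I : ℚ) : ℂ)) = 0

/-- The sums of products of Hodge classes on the powers of `X` and Hodge classes on `Y`. -/
def productClasses (T : K3Type r) (A : Matrix (Fin v) (Fin v) ℂ) (a : ℕ) :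
    Submodule ℚ (Tens r a (Fin v → ℚ)) :=
  Submodule.span ℚ {t | ∃ (u : Tens r a ℚ) (y : Fin v → ℚ), IsHodgeX T u ∧ y ∈ hodgeY A ∧
    t = fun I => u I • y}

theorem mem_product_of_full {a : ℕ} (h : T.z ∈ HL T A) (t : Tens r a (Fin v → ℚ))
    (ht : IsHodge T A t) : t ∈ productClasses T A a := by
  classical
  have hz2 := h.2 a t ht
  have hval : ∀ I, t I ∈ hodgeY A := by
    intro I
    have h5 : act T.z (castT t) + actY A (castT t) = 0 := ht
    rw [hz2, zero_add] at h5
    exact congrFun h5 I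
  let b := Module.finBasis ℚ (hodgeY A)
  have e : t = ∑ k, fun I => (b.repr ⟨t I, hval I⟩ k) • (b k : Fin v → ℚ) := by
    funext I
    rw [Finset.sum_apply]
    have := congrArg Subtype.val (b.sum_repr ⟨t I, hval I⟩)
    refine Eq.trans (Eq.symm this) ?_
    rw [Submodule.coe_sum]
    rfl
  rw [e]
  refine Submodule.sum_mem _ fun k _ => Submodule.subset_span ⟨_, _, ?_, (b k).2, rfl⟩
  -- the coordinates are Hodge classes
  obtain ⟨φ, hφ⟩ : ∃ φ : (Fin v → ℚ) →ₗ[ℚ] ℚ, ∀ x : hodgeY A, φ x = b.repr x k := by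
    obtain ⟨φ, hφ⟩ := LinearMap.exists_extend ((b.coord k))
    exact ⟨φ, fun x => by
      have := LinearMap.congr_fun hφ x
      simpa using this⟩
  unfold IsHodgeX
  funext I
  have h3 : ∀ c, ∑ s : Fin a, ∑ j : Fin r, T.z (I s) j * (t (update I s j) c : ℂ) = 0 := by
    intro c
    have := congrFun (congrFun hz2 I) c
    rw [act_castT_apply] at this
    exact this
  have h4 : ∀ J, ((b.repr ⟨t J, hval J⟩ k : ℚ) : ℂ) =
      ∑ c, (φ (Pi.single c 1) : ℂ) * (t J c : ℂ) := by
    intro J
    rw [← hφ]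
    have h5 : (t J) = ∑ c, t J c • (Pi.single c (1 : ℚ) : Fin v → ℚ) := by
      funext c'
      simp [Finset.sum_apply, Pi.single_apply]
    change ((φ (t J) : ℚ) : ℂ) = _
    conv_lhs => rw [h5]
    rw [map_sum]
    push_cast
    refine Finset.sum_congr rfl fun c _ => ?_
    rw [map_smul, smul_eq_mul]
    push_cast
    ring
  simp only [act, smul_eq_mul, Pi.zero_apply, h4]
  have h6 : ∑ s : Fin a, ∑ j : Fin r, T.z (I s) j *
      ∑ c, (φ (Pi.single c 1) : ℂ) * (t (update I s j) c : ℂ) =
      ∑ c, (φ (Pi.single c 1) : ℂ) * ∑ s : Fin a, ∑ j : Fin r, T.z (I s) j *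
        (t (update I s j) c : ℂ) := by
    simp only [Finset.mul_sum]
    rw [Finset.sum_congr rfl fun s _ => Finset.sum_comm, Finset.sum_comm]
    refine Finset.sum_congr rfl fun c _ => Finset.sum_congr rfl fun s _ =>
      Finset.sum_congr rfl fun j _ => ?_
    ring
  rw [h6]
  simp [h3]

/-- The main theorem. -/
theorem main (T : K3Type r) {i0 : Fin r} (h0 : T.ω i0 = 1) (hr : r ≠ 4)
    (A : Matrix (Fin v) (Fin v) ℂ) (K : Subfield ℂ) (hK : ∀ b c, A b c ∈ K)
    (s : Finset (Fin r)) (hne : s.Nonempty) (hs : AlgebraicIndependent K fun i : s => T.ω i)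
    (hE : EndQ T ∨ r < r.minFac * (s.card + 1)) :
    (∀ (a : ℕ) (t : Tens r a (Fin v → ℚ)), IsHodge T A t → t ∈ productClasses T A a) ∧
      ∀ a < r, ∀ t : Tens r a (Fin v → ℚ), IsHodge T A t ↔ Gen T.d (hodgeY A) a t := by
  classical
  have hδ : ∀ a : s, ∃ δ : Derivation ℚ ℂ ℂ, (∀ x : K, δ (algebraMap K ℂ x) = 0) ∧
      ∀ b : s, δ (T.ω b) = if a = b then 1 else 0 := fun a =>
    Pool.Agent.TH504.CB.exists_derivationK hs fun b => if a = b then 1 else 0
  choose δ hδK hδ using hδ
  have hE' : EndQ T := by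
    rcases hE with h | h
    · exact h
    · exact endQ_of_minFac h h0 δ hδ
  obtain ⟨i, hi⟩ := hne
  have hX := zder_mem T A (δ ⟨i, hi⟩) fun b c => hδK _ ⟨A b c, hK b c⟩
  have hX0 : T.z.map (δ ⟨i, hi⟩) ≠ 0 := by
    intro h
    obtain ⟨c, hc⟩ := zder_ω T (δ ⟨i, hi⟩)
    rw [h, Matrix.zero_mulVec] at hc
    have h1 := congrFun hc i0
    have h2 := congrFun hc i
    simp only [Pi.zero_apply, Pi.add_apply, Pi.smul_apply, smul_eq_mul, h0,
      Derivation.map_one_eq_zero] at h1 h2
    rw [hδ ⟨i, hi⟩ ⟨i, hi⟩, if_pos rfl] at h2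
    have hc0 : c = 0 := by linear_combination -h1
    rw [hc0] at h2
    norm_num at h2
  have hfull := HL_full hE' hr hX hX0
  exact ⟨fun a t ht => mem_product_of_full hfull.1 t ht, fun a ha t =>
    ⟨fun ht => gen_of_full ha hfull t ht, fun ht => isHodge_of_gen T A ht⟩⟩

end Pool.Agent.Q263.K3
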