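import Mathlib
import Pool.Agent.Q263.K3.Fin

/-!
# The cohomology of the products and the classes of cycles
-/

set_option linter.unusedSectionVars false

namespace Pool.Agent.Q263.K3

open Function Module Matrix

variable {r v m n : ℕ}

/-- The rational cohomology of `X ^ n × Y`, by the Künneth formula. The basis of `H(X)` consists
of the `r` vectors of the orthogonal basis of the transcendental part `T` and of `m` classes of
cycles; `H(Y)` is `ℚ ^ v`. -/
abbrev Cls (r m n v : ℕ) := (Fin n → Fin r ⊕ Fin m) → Fin v → ℚ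

/-- The Hodge operator of `X`: the one of `T`, and `0` on the classes of cycles. -/
noncomputable def zX (T : K3Type r) (m : ℕ) : Matrix (Fin r ⊕ Fin m) (Fin r ⊕ Fin m) ℂ :=
  Matrix.fromBlocks T.z 0 0 0

/-- Hodge classes on `X ^ n × Y`. -/
def IsHodgeP (T : K3Type r) (A : Matrix (Fin v) (Fin v) ℂ) (F : Cls r m n v) : Prop :=
  ∀ I b, ∑ s : Fin n, ∑ j : Fin r ⊕ Fin m, zX T m (I s) j * (F (update I s j) b : ℂ) +
    ∑ c, A b c * (F I c : ℂ) = 0

/-- The exterior product of the class of the cycle `e_j` on the factor `s` of `X ^ (n + 1)` and the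
class `g` on the other factors. -/
def crossCyc (s : Fin (n + 1)) (j : Fin m) (g : Cls r m n v) : Cls r m (n + 1) v :=
  fun I => if I s = Sum.inr j then g (s.removeNth I) else 0

/-- The product of the transcendental part of the diagonal, on the factors `0` and `s + 1` of
`X ^ (n + 2)`, and the class `g` on the other factors. -/
def crossDiag (T : K3Type r) (s : Fin (n + 1)) (g : Cls r m n v) : Cls r m (n + 2) v :=
  fun I => ∑ p : Fin r, if I 0 = Sum.inl p ∧ I s.succ = Sum.inl p then
    (T.d p)⁻¹ • g (fun l => I (s.succAbove l).succ) else 0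

/-- The properties of the spans `O n` of the classes of algebraic cycles on `X ^ n × Y` which are
used. The class `e_j0` is the unit class of `X`. -/
structure CycleSpans (T : K3Type r) (m v : ℕ) (j0 : Fin m)
    (O : ∀ n, Submodule ℚ (Cls r m n v)) : Prop where
  cyc : ∀ (n : ℕ) (g : Cls r m n v), g ∈ O n → ∀ (s : Fin (n + 1)) (j : Fin m),
    crossCyc s j g ∈ O (n + 1)
  diag : ∀ (n : ℕ) (g : Cls r m n v), g ∈ O n → ∀ s : Fin (n + 1), crossDiag T s g ∈ O (n + 2)
  restr : ∀ (n : ℕ) (y : Fin v → ℚ),
    (fun I => if ∀ s, I s = Sum.inr j0 then y else 0 : Cls r m n v) ∈ O n →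
      (fun _ => y : Cls r m 0 v) ∈ O 0

variable {T : K3Type r} {A : Matrix (Fin v) (Fin v) ℂ}

theorem zX_inr (j : Fin m) (x : Fin r ⊕ Fin m) : zX T m (Sum.inr j) x = 0 := by
  rcases x with p | q <;> simp [zX]

theorem zX_inl_inr (p : Fin r) (j : Fin m) : zX T m (Sum.inl p) (Sum.inr j) = 0 := by
  simp [zX]

theorem zX_inl_inl (p q : Fin r) : zX T m (Sum.inl p) (Sum.inl q) = T.z p q := by
  simp [zX]

/-- Coefficients at a class of a cycle are Hodge classes. -/
theorem IsHodgeP.coef {F : Cls r m (n + 1) v} (hF : IsHodgeP T A F) (s : Fin (n + 1))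
    (j : Fin m) : IsHodgeP T A (fun I => F (s.insertNth (Sum.inr j) I) : Cls r m n v) := by
  intro I b
  have h := hF (s.insertNth (Sum.inr j) I) b
  rw [Fin.sum_univ_succAbove _ s] at h
  simp only [Fin.insertNth_apply_same, Fin.insertNth_apply_succAbove, zX_inr, zero_mul,
    Finset.sum_const_zero, zero_add] at h
  rw [← h]
  congr 1
  refine Finset.sum_congr rfl fun l _ => Finset.sum_congr rfl fun x _ => ?_
  rw [← Fin.insertNth_update]

/-- The part of a class which has no class of a cycle on the factor `s`. -/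
def cut (s : Fin n) (F : Cls r m n v) : Cls r m n v :=
  fun I => if (I s).isLeft then F I else 0

theorem IsHodgeP.cut {F : Cls r m n v} (hF : IsHodgeP T A F) (s : Fin n) :
    IsHodgeP T A (cut s F) := by
  intro I b
  by_cases hI : (I s).isLeft
  · have h := hF I b
    rw [← h]
    congr 1
    · refine Finset.sum_congr rfl fun l _ => Finset.sum_congr rfl fun x _ => ?_
      by_cases hx : ((update I l x) s).isLeft
      · simp only [K3.cut, hx, if_true]
      · -- then `l = s` and `x` is a class of a cycle
        have hl : l = s := by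
          by_contra hne
          rw [update_of_ne (Ne.symm hne)] at hx
          exact hx hI
        subst hl
        rw [update_self] at hx
        obtain ⟨p, hp⟩ : ∃ p, I l = Sum.inl p := Sum.isLeft_iff.1 hI
        obtain ⟨q, hq⟩ : ∃ q, x = Sum.inr q := by
          rcases x with p | q
          · simp at hx
          · exact ⟨q, rfl⟩
        rw [hp, hq, zX_inl_inr, zero_mul, zero_mul]
    · simp only [K3.cut, hI, if_true]
  · obtain ⟨q, hq⟩ : ∃ q, I s = Sum.inr q := by
      rcases h : I s with p | q
      · rw [h] at hI; simp at hI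
      · exact ⟨q, rfl⟩
    have h1 : ∀ l x, zX T m (I l) x * (((K3.cut s F) (update I l x) b : ℚ) : ℂ) = 0 := by
      intro l x
      by_cases hl : l = s
      · subst hl
        rw [hq, zX_inr, zero_mul]
      · have : ((update I l x) s).isLeft = false := by
          rw [update_of_ne (Ne.symm hl), hq]; rfl
        simp [K3.cut, this]
    have h2 : (K3.cut s F) I = 0 := by
      simp [K3.cut, hq]
    simp only [h1, h2, Finset.sum_const_zero, Pi.zero_apply, Rat.cast_zero, mul_zero, add_zero]

theorem eq_cut_add {F : Cls r m (n + 1) v} (s : Fin (n + 1)) :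
    F = cut s F + ∑ j : Fin m, crossCyc s j (fun I => F (s.insertNth (Sum.inr j) I)) := by
  funext I
  rw [Pi.add_apply, Finset.sum_apply]
  rcases h : I s with p | q
  · have h1 : cut s F I = F I := by simp [cut, h]
    have h2 : ∀ j : Fin m, crossCyc s j (fun I => F (s.insertNth (Sum.inr j) I)) I = 0 := by
      intro j
      simp [crossCyc, h]
    rw [h1]
    simp [h2]
  · have h1 : cut s F I = 0 := by simp [cut, h]
    rw [h1, zero_add, Finset.sum_eq_single q]
    · simp only [crossCyc, h, if_true]
      congr 1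
      rw [← h]
      exact (Fin.insertNth_self_removeNth s I).symm
    · intro j _ hj
      simp [crossCyc, h, Ne.symm hj]
    · intro h; exact absurd (Finset.mem_univ _) h

/-- A tensor on `T` as a class on `X ^ n × Y`. -/
def ext0 (t : Tens r n (Fin v → ℚ)) : Cls r m n v :=
  fun I => if h : ∀ s, (I s).isLeft then t (fun s => (I s).getLeft (h s)) else 0

theorem ext0_inl (t : Tens r n (Fin v → ℚ)) (J : Fin n → Fin r) :
    (ext0 t : Cls r m n v) (fun s => Sum.inl (J s)) = t J := by
  have h : ∀ s, ((Sum.inl (J s) : Fin r ⊕ Fin m)).isLeft := fun s => rfl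
  simp [ext0]

theorem ext0_of_not {t : Tens r n (Fin v → ℚ)} {I : Fin n → Fin r ⊕ Fin m}
    (h : ¬ ∀ s, (I s).isLeft) : (ext0 t : Cls r m n v) I = 0 := by
  simp only [ext0, h, dite_false]

theorem exists_inl {I : Fin n → Fin r ⊕ Fin m} (h : ∀ s, (I s).isLeft) :
    ∃ J : Fin n → Fin r, I = fun s => Sum.inl (J s) :=
  ⟨fun s => (I s).getLeft (h s), by funext s; simp⟩

theorem CycleSpans.gen {j0 : Fin m} {O : ∀ n, Submodule ℚ (Cls r m n v)}
    (hO : CycleSpans T m v j0 O) {S : Submodule ℚ (Fin v → ℚ)}
    (hS : ∀ y ∈ S, (fun _ => y : Cls r m 0 v) ∈ O 0) {a : ℕ} {t : Tens r a (Fin v → ℚ)}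
    (ht : Gen T.d S a t) : (ext0 t : Cls r m a v) ∈ O a := by
  induction ht with
  | base y hy =>
    have : (ext0 (fun _ => y) : Cls r m 0 v) = fun _ => y := by
      funext I
      simp [ext0]
    rw [this]; exact hS y hy
  | @pair a s g hg ih =>
    have := hO.diag _ _ ih s
    convert this using 1
    funext I
    by_cases h : ∀ s, (I s).isLeft
    · obtain ⟨J, rfl⟩ := exists_inl h
      rw [ext0_inl]
      simp only [crossDiag, Sum.inl.injEq]
      rw [Finset.sum_eq_single (J 0)]
      · by_cases h2 : J 0 = J s.succ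
        · rw [if_pos h2, if_pos ⟨rfl, h2.symm⟩, ext0_inl (fun J' => g J')]
        · rw [if_neg h2, if_neg fun h' => h2 h'.2.symm]
      · intro p _ hp
        rw [if_neg fun h' => hp h'.1.symm]
      · intro h; exact absurd (Finset.mem_univ _) h
    · rw [ext0_of_not h]
      symm
      apply Finset.sum_eq_zero
      intro p _
      split_ifs with h2
      · rw [ext0_of_not, smul_zero]
        intro h3
        apply h
        intro l
        rcases Fin.eq_zero_or_eq_succ l with rfl | ⟨l, rfl⟩
        · rw [h2.1]; rfl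
        · rcases Fin.eq_self_or_eq_succAbove s l with rfl | ⟨l', rfl⟩
          · rw [h2.2]; rfl
          · exact h3 l'
      · rfl
  | add t u _ _ iht ihu =>
    have : (ext0 (t + u) : Cls r m _ v) = ext0 t + ext0 u := by
      funext I
      by_cases h : ∀ s, (I s).isLeft
      · obtain ⟨J, rfl⟩ := exists_inl h
        rw [Pi.add_apply, ext0_inl, ext0_inl, ext0_inl, Pi.add_apply]
      · rw [Pi.add_apply, ext0_of_not h, ext0_of_not h, ext0_of_not h, add_zero]
    rw [this]; exact Submodule.add_mem _ iht ihu
  | @zero a =>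
    have : (ext0 (0 : Tens r a (Fin v → ℚ)) : Cls r m a v) = 0 := by
      funext I
      by_cases h : ∀ s, (I s).isLeft
      · obtain ⟨J, rfl⟩ := exists_inl h
        rw [ext0_inl]; rfl
      · rw [ext0_of_not h]; rfl
    rw [this]; exact Submodule.zero_mem _

/-- Classes without classes of cycles on any factor. -/
theorem pure_mem {O : Submodule ℚ (Cls r m n v)}
    (hT : ∀ t : Tens r n (Fin v → ℚ), IsHodge T A t → (ext0 t : Cls r m n v) ∈ O)
    {F : Cls r m n v} (hF : IsHodgeP T A F) (hp : ∀ I, ¬ (∀ s, (I s).isLeft) → F I = 0) :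
    F ∈ O := by
  let t : Tens r n (Fin v → ℚ) := fun J => F (fun s => Sum.inl (J s))
  have e : F = ext0 t := by
    funext I
    by_cases h : ∀ s, (I s).isLeft
    · obtain ⟨J, rfl⟩ := exists_inl h
      rw [ext0_inl]
    · rw [ext0_of_not h, hp I h]
  rw [e]
  refine hT t ?_
  unfold IsHodge
  funext J b
  rw [Pi.add_apply, Pi.add_apply, act_castT_apply, Pi.zero_apply, Pi.zero_apply]
  have h := hF (fun s => Sum.inl (J s)) b
  rw [← h]
  congr 1
  refine Finset.sum_congr rfl fun s _ => ?_
  rw [Fintype.sum_sum_type]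
  simp only [zX_inl_inl, zX_inl_inr, zero_mul, Finset.sum_const_zero, add_zero]
  refine Finset.sum_congr rfl fun j _ => ?_
  congr 2
  change F (fun s' => Sum.inl (update J s j s')) b = _
  congr 1
  funext s'
  rcases eq_or_ne s' s with rfl | hs
  · rw [update_self, update_self]
  · rw [update_of_ne hs, update_of_ne hs]

/-- A family of spaces closed under exterior products with classes of cycles contains all Hodge
classes if it contains those in the tensor powers of `T`. -/
theorem all_mem {O : ∀ n, Submodule ℚ (Cls r m n v)}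
    (hcyc : ∀ (n : ℕ) (g : Cls r m n v), g ∈ O n → ∀ (s : Fin (n + 1)) (j : Fin m),
      crossCyc s j g ∈ O (n + 1)) (N : ℕ)
    (hT : ∀ n < N, ∀ t : Tens r n (Fin v → ℚ), IsHodge T A t → (ext0 t : Cls r m n v) ∈ O n) :
    ∀ (n : ℕ), n < N → ∀ F : Cls r m n v, IsHodgeP T A F → F ∈ O n := by
  intro n
  induction n with
  | zero =>
    intro hn F hF
    exact pure_mem (hT 0 hn) hF fun I h => absurd (fun s => s.elim0) h
  | succ n ih =>
    intro hn
    -- descending induction on the number of factors which are cut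
    have key : ∀ k : ℕ, k ≤ n + 1 → ∀ F : Cls r m (n + 1) v, IsHodgeP T A F →
        (∀ I, (∃ s : Fin (n + 1), (s : ℕ) < n + 1 - k ∧ ¬ (I s).isLeft) → F I = 0) → F ∈ O (n + 1) := by
      intro k
      induction k with
      | zero =>
        intro _ F hF hF0
        refine pure_mem (hT (n + 1) hn) hF fun I h => hF0 I ?_
        push Not at h
        obtain ⟨s, hs⟩ := h
        exact ⟨s, by have := s.2; omega, hs⟩
      | succ k ihk =>
        intro hk F hF hF0
        let s : Fin (n + 1) := ⟨n - k, by omega⟩
        rw [eq_cut_add (F := F) s]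
        refine Submodule.add_mem _ (ihk (by omega) _ (hF.cut s) ?_) (Submodule.sum_mem _ fun j _ =>
          hcyc _ _ (ih (by omega) _ (hF.coef s j)) s j)
        rintro I ⟨s', hs', hI⟩
        by_cases h : s' = s
        · subst h
          simp [cut, hI]
        · have hlt : (s' : ℕ) < n + 1 - (k + 1) := by
            have : (s' : ℕ) ≠ n - k := fun h' => h (Fin.ext h')
            omega
          have h0 := hF0 I ⟨s', hlt, hI⟩
          simp only [cut, h0]
          split_ifs <;> rfl
    intro F hF
    refine key (n + 1) le_rfl F hF ?_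
    rintro I ⟨s, hs, -⟩
    omega

/-- The exterior product of a Hodge class of `Y` and the unit class of `X ^ n`. -/
theorem isHodgeP_unit (j0 : Fin m) {y : Fin v → ℚ} (hy : y ∈ hodgeY A) :
    IsHodgeP T A (fun I => if ∀ s, I s = Sum.inr j0 then y else 0 : Cls r m n v) := by
  intro I b
  have h1 : ∀ l x, zX T m (I l) x *
      (((if ∀ s, (update I l x) s = Sum.inr j0 then y else 0 : Fin v → ℚ) b : ℚ) : ℂ) = 0 := by
    intro l x
    by_cases h : ∀ s, (update I l x) s = Sum.inr j0
    · have hx : x = Sum.inr j0 := by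
        have := h l
        rwa [update_self] at this
      subst hx
      rcases hI : I l with p | q
      · rw [zX_inl_inr, zero_mul]
      · rw [zX_inr, zero_mul]
    · rw [if_neg h]; simp
  simp only [h1, Finset.sum_const_zero, zero_add]
  by_cases h : ∀ s, I s = Sum.inr j0
  · simp only [h, implies_true, if_true]
    have h3 : A *ᵥ (fun b => (y b : ℂ)) = 0 := hy
    exact congrFun h3 b
  · simp [h]

/-- Hodge classes on `X ^ n`. -/
def IsHodgeXn (T : K3Type r) (u : (Fin n → Fin r ⊕ Fin m) → ℚ) : Prop :=
  ∀ I, ∑ s : Fin n, ∑ j : Fin r ⊕ Fin m, zX T m (I s) j * (u (update I s j) : ℂ) = 0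

/-- The sums of exterior products of Hodge classes on `X ^ n` and Hodge classes on `Y`. -/
def sumsOfProducts (T : K3Type r) (A : Matrix (Fin v) (Fin v) ℂ) (m n : ℕ) :
    Submodule ℚ (Cls r m n v) :=
  Submodule.span ℚ {F | ∃ (u : (Fin n → Fin r ⊕ Fin m) → ℚ) (y : Fin v → ℚ), IsHodgeXn T u ∧
    y ∈ hodgeY A ∧ F = fun I => u I • y}

theorem hodgeXn_cyc {u : (Fin n → Fin r ⊕ Fin m) → ℚ} (hu : IsHodgeXn T u) (s : Fin (n + 1))
    (j : Fin m) : IsHodgeXn T (fun I : Fin (n + 1) → Fin r ⊕ Fin m =>
      if I s = Sum.inr j then u (s.removeNth I) else 0) := by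
  intro I
  rw [Fin.sum_univ_succAbove _ s]
  have h0 : ∑ x : Fin r ⊕ Fin m, zX T m (I s) x *
      ((if update I s x s = Sum.inr j then u (s.removeNth (update I s x)) else 0 : ℚ) : ℂ) = 0 := by
    apply Finset.sum_eq_zero
    intro x _
    rw [update_self]
    rcases hI : I s with p | q
    · rcases x with p' | q'
      · rw [if_neg (by simp)]; simp
      · rw [zX_inl_inr, zero_mul]
    · rw [zX_inr, zero_mul]
  rw [h0, zero_add]
  have h1 : ∀ (l : Fin n) (x : Fin r ⊕ Fin m), zX T m (I (s.succAbove l)) x *
      ((if update I (s.succAbove l) x s = Sum.inr j then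
        u (s.removeNth (update I (s.succAbove l) x)) else 0 : ℚ) : ℂ) =
      if I s = Sum.inr j then zX T m ((s.removeNth I) l) x *
        (u (update (s.removeNth I) l x) : ℂ) else 0 := by
    intro l x
    rw [update_of_ne (Fin.succAbove_ne s l).symm]
    split_ifs with h
    · have : s.removeNth (update I (s.succAbove l) x) = update (s.removeNth I) l x := by
        funext l'
        simp only [Fin.removeNth]
        rcases eq_or_ne l' l with rfl | h'
        · rw [update_self, update_self]
        · rw [update_of_ne h', update_of_ne]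
          · rfl
          · intro h''; exact h' (Fin.succAbove_right_injective h'')
      rw [this]
      rfl
    · simp
  simp only [h1]
  by_cases h : I s = Sum.inr j
  · simp only [h, if_true]
    exact hu (s.removeNth I)
  · simp [h]

/-- A scalar tensor on `T` as a class on `X ^ n`. -/
def ext1 (t : Tens r n ℚ) : (Fin n → Fin r ⊕ Fin m) → ℚ :=
  fun I => if h : ∀ s, (I s).isLeft then t (fun s => (I s).getLeft (h s)) else 0

theorem ext1_inl (t : Tens r n ℚ) (J : Fin n → Fin r) :
    (ext1 t : (Fin n → Fin r ⊕ Fin m) → ℚ) (fun s => Sum.inl (J s)) = t J := by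
  simp [ext1]

theorem ext1_of_not {t : Tens r n ℚ} {I : Fin n → Fin r ⊕ Fin m}
    (h : ¬ ∀ s, (I s).isLeft) : (ext1 t : (Fin n → Fin r ⊕ Fin m) → ℚ) I = 0 := by
  simp only [ext1, h, dite_false]

theorem hodgeXn_ext1 {t : Tens r n ℚ} (ht : IsHodgeX T t) :
    IsHodgeXn T (ext1 t : (Fin n → Fin r ⊕ Fin m) → ℚ) := by
  intro I
  by_cases h : ∀ s, (I s).isLeft
  · obtain ⟨J, rfl⟩ := exists_inl h
    have h1 := congrFun ht J
    simp only [act, smul_eq_mul, Pi.zero_apply] at h1
    rw [← h1]
    refine Finset.sum_congr rfl fun s _ => ?_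
    rw [Fintype.sum_sum_type]
    simp only [zX_inl_inl, zX_inl_inr, zero_mul, Finset.sum_const_zero, add_zero]
    refine Finset.sum_congr rfl fun j _ => ?_
    congr 2
    have : update (fun s => (Sum.inl (J s) : Fin r ⊕ Fin m)) s (Sum.inl j) =
        fun s' => Sum.inl (update J s j s') := by
      funext s'
      rcases eq_or_ne s' s with rfl | hs
      · rw [update_self, update_self]
      · rw [update_of_ne hs, update_of_ne hs]
    rw [this, ext1_inl]
  · apply Finset.sum_eq_zero
    intro s _
    apply Finset.sum_eq_zero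
    intro x _
    rcases hI : I s with p | q
    · have h2 : ¬ ∀ s', (update I s x s').isLeft := by
        push Not at h ⊢
        obtain ⟨s', hs'⟩ := h
        have hne : s' ≠ s := by
          rintro rfl
          rw [hI] at hs'
          exact hs' rfl
        exact ⟨s', by rwa [update_of_ne hne]⟩
      rw [ext1_of_not h2]; simp
    · rw [zX_inr, zero_mul]

theorem sums_cyc (n : ℕ) (g : Cls r m n v) (hg : g ∈ sumsOfProducts T A m n) (s : Fin (n + 1))
    (j : Fin m) : crossCyc s j g ∈ sumsOfProducts T A m (n + 1) := by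
  induction hg using Submodule.span_induction with
  | mem g hg =>
    obtain ⟨u, y, hu, hy, rfl⟩ := hg
    refine Submodule.subset_span ⟨_, y, hodgeXn_cyc hu s j, hy, ?_⟩
    funext I
    simp only [crossCyc]
    split_ifs
    · rfl
    · rw [zero_smul]
  | zero =>
    have : crossCyc s j (0 : Cls r m n v) = 0 := by
      funext I; simp [crossCyc]
    rw [this]; exact Submodule.zero_mem _
  | add x y _ _ hx hy =>
    have : crossCyc s j (x + y) = crossCyc s j x + crossCyc s j y := by
      funext I
      simp only [crossCyc, Pi.add_apply]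
      split_ifs
      · rfl
      · rw [add_zero]
    rw [this]; exact Submodule.add_mem _ hx hy
  | smul c x _ hx =>
    have : crossCyc s j (c • x) = c • crossCyc s j x := by
      funext I
      simp only [crossCyc, Pi.smul_apply]
      split_ifs
      · rfl
      · rw [smul_zero]
    rw [this]; exact Submodule.smul_mem _ _ hx

theorem sums_ext0 {t : Tens r n (Fin v → ℚ)} (ht : t ∈ productClasses T A n) :
    (ext0 t : Cls r m n v) ∈ sumsOfProducts T A m n := by
  have hadd : ∀ x y : Tens r n (Fin v → ℚ), (ext0 (x + y) : Cls r m n v) = ext0 x + ext0 y := by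
    intro x y
    funext I
    by_cases h : ∀ s, (I s).isLeft
    · obtain ⟨J, rfl⟩ := exists_inl h
      rw [Pi.add_apply, ext0_inl, ext0_inl, ext0_inl, Pi.add_apply]
    · rw [Pi.add_apply, ext0_of_not h, ext0_of_not h, ext0_of_not h, add_zero]
  induction ht using Submodule.span_induction with
  | mem g hg =>
    obtain ⟨u, y, hu, hy, rfl⟩ := hg
    refine Submodule.subset_span ⟨ext1 u, y, hodgeXn_ext1 hu, hy, ?_⟩
    funext I
    by_cases h : ∀ s, (I s).isLeft
    · obtain ⟨J, rfl⟩ := exists_inl h
      rw [ext0_inl, ext1_inl]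
    · rw [ext0_of_not h, ext1_of_not h, zero_smul]
  | zero =>
    have : (ext0 (0 : Tens r n (Fin v → ℚ)) : Cls r m n v) = 0 := by
      funext I
      by_cases h : ∀ s, (I s).isLeft
      · obtain ⟨J, rfl⟩ := exists_inl h
        rw [ext0_inl]; rfl
      · rw [ext0_of_not h]; rfl
    rw [this]; exact Submodule.zero_mem _
  | add x y _ _ hx hy => rw [hadd]; exact Submodule.add_mem _ hx hy
  | smul c x _ hx =>
    have : (ext0 (c • x) : Cls r m n v) = c • ext0 x := by
      funext I
      by_cases h : ∀ s, (I s).isLeft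
      · obtain ⟨J, rfl⟩ := exists_inl h
        rw [Pi.smul_apply, ext0_inl, ext0_inl, Pi.smul_apply]
      · rw [Pi.smul_apply, ext0_of_not h, ext0_of_not h, smul_zero]
    rw [this]; exact Submodule.smul_mem _ _ hx

/-- The Hodge conjecture for `X ^ n × Y`, if `O n` is the span of the classes of cycles. -/
def HodgeConj (T : K3Type r) (A : Matrix (Fin v) (Fin v) ℂ)
    (O : ∀ n, Submodule ℚ (Cls r m n v)) (n : ℕ) : Prop :=
  ∀ F : Cls r m n v, IsHodgeP T A F → F ∈ O n

/-- From the tensor powers of `T` to the products. -/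
theorem product_of (T : K3Type r) (A : Matrix (Fin v) (Fin v) ℂ) (j0 : Fin m)
    (O : ∀ n, Submodule ℚ (Cls r m n v)) (hO : CycleSpans T m v j0 O)
    (h1 : ∀ (a : ℕ) (t : Tens r a (Fin v → ℚ)), IsHodge T A t → t ∈ productClasses T A a)
    (h2 : ∀ a < r, ∀ t : Tens r a (Fin v → ℚ), IsHodge T A t → Gen T.d (hodgeY A) a t) :
    (∀ n < r, (HodgeConj T A O n ↔ HodgeConj T A O 0)) ∧
      ∀ (n : ℕ) (F : Cls r m n v), IsHodgeP T A F → F ∈ sumsOfProducts T A m n := by
  constructor
  · intro n hn
    constructor
    · intro hc F hF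
      -- `F` is given by a Hodge class of `Y`
      have hy : F Fin.elim0 ∈ hodgeY A := by
        change A *ᵥ (fun b => (F Fin.elim0 b : ℂ)) = 0
        funext b
        have := hF Fin.elim0 b
        rw [Finset.univ_eq_empty, Finset.sum_empty, zero_add] at this
        exact this
      have h3 := hO.restr n _ (hc _ (isHodgeP_unit j0 hy))
      have e : F = fun _ => F Fin.elim0 := by
        funext I
        congr 1
        exact Subsingleton.elim _ _
      rw [e]; exact h3
    · intro hc
      have hY : ∀ y ∈ hodgeY A, (fun _ => y : Cls r m 0 v) ∈ O 0 := by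
        intro y hy
        refine hc _ fun I b => ?_
        rw [Finset.univ_eq_empty, Finset.sum_empty, zero_add]
        exact congrFun hy b
      exact all_mem hO.cyc r (fun n hn t ht => hO.gen hY (h2 n hn t ht)) n hn
  · intro n F hF
    exact all_mem (sums_cyc (T := T) (A := A)) (n + 1) (fun n _ t ht => sums_ext0 (h1 n t ht)) n
      (Nat.lt_succ_self n) F hF

/-- The main theorem on products. -/
theorem main_product (T : K3Type r) {i0 : Fin r} (h0 : T.ω i0 = 1) (hr : r ≠ 4)
    (A : Matrix (Fin v) (Fin v) ℂ) (K : Subfield ℂ) (hK : ∀ b c, A b c ∈ K)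
    (s : Finset (Fin r)) (hne : s.Nonempty) (hs : AlgebraicIndependent K fun i : s => T.ω i)
    (hE : EndQ T ∨ r < r.minFac * (s.card + 1)) (j0 : Fin m)
    (O : ∀ n, Submodule ℚ (Cls r m n v)) (hO : CycleSpans T m v j0 O) :
    (∀ n < r, (HodgeConj T A O n ↔ HodgeConj T A O 0)) ∧
      ∀ (n : ℕ) (F : Cls r m n v), IsHodgeP T A F → F ∈ sumsOfProducts T A m n := by
  obtain ⟨h1, h2⟩ := main T h0 hr A K hK s hne hs hE
  exact product_of T A j0 O hO h1 fun n hn t ht => (h2 n hn t).1 ht

end Pool.Agent.Q263.K3
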