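import Mathlib
import Pool.Agent.Q263.K3.Pro

/-!
# One period outside the field of the periods of `Y`
-/

set_option linter.unusedSectionVars false

namespace Pool.Agent.Q263.K3

open Function Module Matrix

variable {r v m n : ℕ}

/-- If a period is not in the field `K`, then some entry of the Hodge operator is not in `K`. -/
theorem exists_entry (T : K3Type r) {i0 : Fin r} (h0 : T.ω i0 = 1) (K : Subfield ℂ) {i : Fin r}
    (hi : T.ω i ∉ K) : ∃ a b, T.z a b ∉ K := by
  by_contra hc
  push Not at hc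
  -- a `K`-linear functional which vanishes at `1` but not at `ω i`
  have h1 : T.ω i ∉ Submodule.span K ({(1 : ℂ)} : Set ℂ) := by
    intro h
    obtain ⟨c, hc⟩ := Submodule.mem_span_singleton.1 h
    apply hi
    rw [← hc, Subfield.smul_def, smul_eq_mul, mul_one]
    exact c.2
  obtain ⟨φ, hφ, hφ1⟩ := Submodule.exists_le_ker_of_notMem h1
  have hφ0 : φ 1 = 0 := hφ1 (Submodule.mem_span_singleton_self _)
  have hlin : ∀ (x : ℂ) (c : ℂ), c ∈ K → ((φ (c * x) : K) : ℂ) = c * (φ x : ℂ) := by
    intro x c hcK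
    have : c * x = (⟨c, hcK⟩ : K) • x := rfl
    rw [this, map_smul]
    rfl
  let w : Fin r → ℂ := fun j => ((φ (T.ω j) : K) : ℂ)
  have hw : T.z *ᵥ w = (2 : ℂ) • w := by
    funext a
    have h2 := congrFun T.z_ω a
    rw [Pi.smul_apply, smul_eq_mul, Matrix.mulVec, dotProduct] at h2
    have h3 : ((φ (∑ j, T.z a j * T.ω j) : K) : ℂ) = ((φ (2 * T.ω a) : K) : ℂ) := by rw [h2]
    rw [map_sum] at h3
    rw [Pi.smul_apply, smul_eq_mul, Matrix.mulVec, dotProduct]
    have h4 : ((∑ j, φ (T.z a j * T.ω j) : K) : ℂ) = ∑ j, T.z a j * w j := by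
      push_cast
      exact Finset.sum_congr rfl fun j _ => hlin _ _ (hc a j)
    have h5 : ((φ (2 * T.ω a) : K) : ℂ) = 2 * w a := hlin _ _ (by
      have : (2 : ℂ) = ((2 : K) : ℂ) := rfl
      rw [this]; exact (2 : K).2)
    rw [h4, h5] at h3
    exact h3
  obtain ⟨c, hcw⟩ := T.eigen_two hw
  have hc0 : c = 0 := by
    have := congrFun hcw i0
    rw [Pi.smul_apply, h0, smul_eq_mul, mul_one] at this
    rw [← this]
    change ((φ (T.ω i0) : K) : ℂ) = 0
    rw [h0, hφ0]; rfl
  have h6 := congrFun hcw i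
  rw [hc0, zero_smul, Pi.zero_apply] at h6
  apply hφ
  have : ((φ (T.ω i) : K) : ℂ) = ((0 : K) : ℂ) := h6
  exact Subtype.ext this

/-- The rational span of the entries of the Hodge operator of `Y`. -/
noncomputable def entrySpan (A : Matrix (Fin v) (Fin v) ℂ) : Submodule ℚ ℂ :=
  Submodule.span ℚ (Set.range fun p : Fin v × Fin v => A p.1 p.2)

/-- A nonzero rational matrix which kills all Hodge classes. -/
theorem exists_HL_span (T : K3Type r) (A : Matrix (Fin v) (Fin v) ℂ) {a b : Fin r}
    (hab : T.z a b ∉ entrySpan A) : ∃ X ∈ HL T A, X ≠ 0 := by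
  obtain ⟨τ, hτ, hτ1⟩ := Submodule.exists_le_ker_of_notMem hab
  have hτK : ∀ b c, τ (A b c) = 0 := fun b c => hτ1 (Submodule.subset_span ⟨(b, c), rfl⟩)
  obtain ⟨x1, B, x2⟩ := (GG_lieAlg T A).ra _ (z_mem_GG (T := T) (A := A)) τ
  refine ⟨T.z.map (fun x => ((τ x : ℚ) : ℂ)), ⟨x1, fun n t ht => ?_⟩, ?_⟩
  · -- apply `τ` to the Hodge equation
    funext I c
    have h3 := congrFun (congrFun ht I) c
    rw [Pi.add_apply, Pi.add_apply, act_castT_apply] at h3
    simp only [actY, castT, Matrix.mulVec, dotProduct, Pi.zero_apply] at h3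
    have h4 : ∑ s : Fin n, ∑ j : Fin r, (t (update I s j) c) • T.z (I s) j +
        ∑ e, (t I e) • A c e = 0 := by
      rw [← h3]
      congr 1
      · refine Finset.sum_congr rfl fun s _ => Finset.sum_congr rfl fun j _ => ?_
        rw [Rat.smul_def, mul_comm]
      · refine Finset.sum_congr rfl fun e _ => ?_
        rw [Rat.smul_def, mul_comm]
    have h5 := congrArg τ h4
    simp only [map_add, map_sum, map_smul, map_zero, smul_eq_mul] at h5
    have h6 : ∑ e, t I e * τ (A c e) = 0 :=
      Finset.sum_eq_zero fun e _ => by rw [hτK c e, mul_zero]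
    rw [h6, add_zero] at h5
    rw [act_castT_apply]
    simp only [Matrix.map_apply, Pi.zero_apply]
    have h7 : (((∑ s : Fin n, ∑ j : Fin r, t (update I s j) c * τ (T.z (I s) j) : ℚ)) : ℂ) = 0 := by
      rw [h5]; simp
    rw [← h7]
    push_cast
    refine Finset.sum_congr rfl fun s _ => Finset.sum_congr rfl fun j _ => ?_
    rw [mul_comm]
  · intro h
    have := congrFun (congrFun h a) b
    rw [Matrix.map_apply, Matrix.zero_apply] at this
    exact hτ (by exact_mod_cast this)

/-- The condition from one period outside a field. -/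
theorem exists_entry_span (T : K3Type r) {i0 : Fin r} (h0 : T.ω i0 = 1)
    (A : Matrix (Fin v) (Fin v) ℂ) (K : Subfield ℂ) (hK : ∀ b c, A b c ∈ K) {i : Fin r}
    (hi : T.ω i ∉ K) : ∃ a b, T.z a b ∉ entrySpan A := by
  obtain ⟨a, b, hab⟩ := exists_entry T h0 K hi
  refine ⟨a, b, fun h => hab ?_⟩
  -- the field as a rational subspace
  let KQ : Submodule ℚ ℂ :=
    { carrier := K
      add_mem' := fun h h' => K.add_mem h h'
      zero_mem' := K.zero_mem
      smul_mem' := fun c x hx => by
        rw [Rat.smul_def]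
        exact K.mul_mem (by
          have : ((c : ℂ)) = (((c : ℚ) : K) : ℂ) := by simp
          rw [this]; exact ((c : ℚ) : K).2) hx }
  have h1 : entrySpan A ≤ KQ := by
    refine Submodule.span_le.2 ?_
    rintro _ ⟨p, rfl⟩
    exact hK p.1 p.2
  exact h1 h

/-- The condition on the endomorphisms from independent periods. -/
theorem endQ_of_indep (T : K3Type r) {i0 : Fin r} (h0 : T.ω i0 = 1) (s : Finset (Fin r))
    (hs : AlgebraicIndependent ℚ fun i : s => T.ω i) (hr : r < r.minFac * (s.card + 1)) :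
    EndQ T := by
  classical
  have hδ : ∀ a : s, ∃ δ : Derivation ℚ ℂ ℂ, ∀ b : s, δ (T.ω b) = if a = b then 1 else 0 :=
    fun a => Pool.Agent.W437.HD.exists_derivation hs fun b => if a = b then 1 else 0
  choose δ hδ using hδ
  exact endQ_of_minFac hr h0 δ hδ

/-- The main theorem on products, with an entry of the Hodge operator of `X` outside the span of the
entries of the Hodge operator of `Y`. -/
theorem main_span (T : K3Type r) (hr : r ≠ 4) (hE : EndQ T)
    (A : Matrix (Fin v) (Fin v) ℂ) {a b : Fin r} (hab : T.z a b ∉ entrySpan A) (j0 : Fin m)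
    (O : ∀ n, Submodule ℚ (Cls r m n v)) (hO : CycleSpans T m v j0 O) :
    (∀ n < r, (HodgeConj T A O n ↔ HodgeConj T A O 0)) ∧
      ∀ (n : ℕ) (F : Cls r m n v), IsHodgeP T A F → F ∈ sumsOfProducts T A m n := by
  obtain ⟨X, hX, hX0⟩ := exists_HL_span T A hab
  have hfull := HL_full hE hr hX hX0
  exact product_of T A j0 O hO (fun n t ht => mem_product_of_full hfull.1 t ht)
    fun n hn t ht => gen_of_full hn hfull t ht

end Pool.Agent.Q263.K3
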